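import Pool.Agent.Lib.MP_d821cf_co.Sub.Num

/-!
# Costas permutations as Sidon sets
-/

set_option autoImplicit false

namespace Pool.MP_d821cf_co.Sub

open Finset

/-- The graph of a permutation in `ℤ × ℤ`. -/
def graph {n : ℕ} (σ : Equiv.Perm (Fin n)) : Finset (ℤ × ℤ) :=
  univ.image (fun i : Fin n => ((i : ℤ), ((σ i : Fin n) : ℤ)))

/-- The square `[0, m)²`. -/
noncomputable def box (m : ℕ) : Finset (ℤ × ℤ) := Finset.Ico (0 : ℤ) m ×ˢ Finset.Ico (0 : ℤ) m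

theorem card_box (m : ℕ) : #(box m) = m ^ 2 := by
  unfold box
  rw [card_product, Int.card_Ico]
  simp [sq]

theorem mem_graph {n : ℕ} {σ : Equiv.Perm (Fin n)} {q : ℤ × ℤ} :
    q ∈ graph σ ↔ ∃ i : Fin n, ((i : ℤ), ((σ i : Fin n) : ℤ)) = q := by
  unfold graph
  rw [mem_image]
  constructor
  · rintro ⟨i, _, h⟩
    exact ⟨i, h⟩
  · rintro ⟨i, h⟩
    exact ⟨i, mem_univ _, h⟩

theorem graph_box {n : ℕ} (σ : Equiv.Perm (Fin n)) : graph σ ⊆ box n := by
  intro q hq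
  obtain ⟨i, rfl⟩ := mem_graph.1 hq
  have h1 := i.2
  have h2 := (σ i).2
  unfold box
  rw [mem_product, mem_Ico, mem_Ico]
  change ((0 : ℤ) ≤ ((i : ℕ) : ℤ) ∧ ((i : ℕ) : ℤ) < n) ∧
    ((0 : ℤ) ≤ (((σ i : Fin n) : ℕ) : ℤ) ∧ (((σ i : Fin n) : ℕ) : ℤ) < n)
  omega

theorem fin_cast_inj {n : ℕ} {i j : Fin n} (h : ((i : ℕ) : ℤ) = ((j : ℕ) : ℤ)) : i = j := by
  apply Fin.ext
  exact_mod_cast h

theorem card_graph {n : ℕ} (σ : Equiv.Perm (Fin n)) : #(graph σ) = n := by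
  unfold graph
  rw [card_image_of_injective, card_univ, Fintype.card_fin]
  intro i j h
  exact fin_cast_inj (Prod.ext_iff.1 h).1

theorem graph_injective (n : ℕ) :
    Function.Injective (graph : Equiv.Perm (Fin n) → Finset (ℤ × ℤ)) := by
  intro σ τ h
  apply Equiv.ext
  intro i
  have h1 : ((i : ℤ), ((σ i : Fin n) : ℤ)) ∈ graph τ := by
    rw [← h]
    exact mem_graph.2 ⟨i, rfl⟩
  obtain ⟨j, hj⟩ := mem_graph.1 h1
  rw [Prod.ext_iff] at hj
  have h2 : j = i := fin_cast_inj hj.1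
  subst h2
  exact (fin_cast_inj hj.2).symm

theorem graph_sid {n : ℕ} {σ : Equiv.Perm (Fin n)} (h : IsCostas σ) : Sid (graph σ) := by
  intro a ha b hb c hc d hd hab habcd
  obtain ⟨i, rfl⟩ := mem_graph.1 ha
  obtain ⟨j, rfl⟩ := mem_graph.1 hb
  obtain ⟨k, rfl⟩ := mem_graph.1 hc
  obtain ⟨l, rfl⟩ := mem_graph.1 hd
  have hij : i ≠ j := fun he => hab (by rw [he])
  have h1 : ((i : ℕ) : ℤ) - (j : ℕ) = ((k : ℕ) : ℤ) - (l : ℕ) := (Prod.ext_iff.1 habcd).1
  have h2 : (((σ i : Fin n) : ℕ) : ℤ) - ((σ j : Fin n) : ℕ) =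
    (((σ k : Fin n) : ℕ) : ℤ) - ((σ l : Fin n) : ℕ) := (Prod.ext_iff.1 habcd).2
  rcases lt_or_gt_of_ne hij with hlt | hlt
  · have hlt' : ((i : ℕ) : ℤ) < (j : ℕ) := by exact_mod_cast hlt
    have hkl : k < l := by
      have : ((k : ℕ) : ℤ) < (l : ℕ) := by omega
      exact_mod_cast this
    obtain ⟨e1, e2⟩ := h i j k l hlt hkl (by omega) (by omega)
    subst e1 e2
    exact ⟨rfl, rfl⟩
  · have hlt' : ((j : ℕ) : ℤ) < (i : ℕ) := by exact_mod_cast hlt
    have hkl : l < k := by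
      have : ((l : ℕ) : ℤ) < (k : ℕ) := by omega
      exact_mod_cast this
    obtain ⟨e1, e2⟩ := h j i l k hlt hkl (by omega) (by omega)
    subst e1 e2
    exact ⟨rfl, rfl⟩

/-- The bound for the number of Costas permutations in terms of the parameters. -/
theorem C_le_param {n u R k d b : ℕ} {p : ℝ} (h0 : 0 < p) (h1 : p ≤ 1) (hn1 : 1 ≤ n)
    (hk : 12 * k ≤ R) (hPk : ((n : ℝ) ^ 2) * (1 - p ^ 3) ^ k < 1 / 2)
    (hb : 2 * p * n ≤ b)
    (hd : ∀ y : ℕ, ((y : ℝ) * (u : ℝ) ^ 2) ^ 2 + 4 * ((n : ℝ) * (u : ℝ) ^ 2) ^ 2 ≤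
      ((n : ℝ) + u) ^ 2 * (y * (u : ℝ) ^ 2) + 4 * (((n : ℝ) + u) ^ 2 * (n * (u : ℝ) ^ 2 +
        ((u : ℝ) ^ 2) ^ 2 + R * (u : ℝ) ^ 2 * y)) → y ≤ d) :
    C n ≤ (n ^ 2 + 1) ^ d * (n ^ 2 + 1) ^ b := by
  classical
  have hC : C n = #((univ.filter (fun σ : Equiv.Perm (Fin n) => IsCostas σ)).image graph) := by
    rw [card_image_of_injective _ (graph_injective n)]
    unfold C
    rw [Nat.card_eq_fintype_card, Fintype.card_subtype]
  rw [hC]
  have h := card_family (P := box n) (U := box u) (S := box (n + u)) (n := n) (R := R) (k := k)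
    (d := d) (b := b) h0 h1 hn1 (by
      intro a ha s hs
      unfold box at *
      rw [mem_product, mem_Ico, mem_Ico] at *
      push_cast
      obtain ⟨⟨a1, a2⟩, a3, a4⟩ := ha
      obtain ⟨⟨b1, b2⟩, b3, b4⟩ := hs
      refine ⟨⟨?_, ?_⟩, ?_, ?_⟩
      · exact add_nonneg a1 b1
      · exact add_lt_add a2 b2
      · exact add_nonneg a3 b3
      · exact add_lt_add a4 b4) hk (by
      rw [card_box]
      push_cast
      exact hPk) hb (by
      intro y hy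
      refine hd y ?_
      rw [card_box, card_box] at hy
      push_cast at hy
      exact hy)
    ((univ.filter (fun σ : Equiv.Perm (Fin n) => IsCostas σ)).image graph) (by
      intro A hA
      obtain ⟨σ, hσ, rfl⟩ := mem_image.1 hA
      exact graph_sid (mem_filter.1 hσ).2) (by
      intro A hA
      obtain ⟨σ, hσ, rfl⟩ := mem_image.1 hA
      exact graph_box σ) (by
      intro A hA
      obtain ⟨σ, hσ, rfl⟩ := mem_image.1 hA
      exact card_graph σ)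
  rw [card_box] at h
  exact h

end Pool.MP_d821cf_co.Sub
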