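import Pool.Agent.Lib.MP_d821cf_co.Sub.Shatter

/-!
# The size of a family of near-extremal Sidon sets
-/

set_option autoImplicit false

namespace Pool.MP_d821cf_co.Sub

open Finset

theorem card_small {α : Type*} [DecidableEq α] (P : Finset α) (q : ℕ) :
    #(P.powerset.filter (fun F => #F ≤ q)) ≤ (#P + 1) ^ q := by
  classical
  have h1 : #(P.powerset.filter (fun F => #F ≤ q)) ≤
      #(Fintype.piFinset (fun _ : Fin q => Finset.insertNone P)) := by
    refine card_le_card_of_surjOn (fun t => P.filter (fun v => ∃ i, t i = some v)) ?_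
    intro F hF
    have hF' : F ⊆ P ∧ #F ≤ q := by
      have h2 : F ∈ P.powerset.filter (fun F => #F ≤ q) := hF
      rw [mem_filter, mem_powerset] at h2
      exact h2
    refine ⟨fun i => F.toList[i.1]?, ?_, ?_⟩
    · rw [mem_coe, Fintype.mem_piFinset]
      intro i
      rw [mem_insertNone]
      intro a ha
      have ha' : F.toList[i.1]? = some a := ha
      exact hF'.1 (Finset.mem_toList.1 (List.mem_of_getElem? ha'))
    · ext v
      rw [mem_filter]
      constructor
      · rintro ⟨_, i, hi⟩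
        exact Finset.mem_toList.1 (List.mem_of_getElem? hi)
      · intro hv
        refine ⟨hF'.1 hv, ?_⟩
        rw [← Finset.mem_toList, List.mem_iff_getElem?] at hv
        obtain ⟨i, hi⟩ := hv
        have hlt : i < F.toList.length := by
          rw [List.getElem?_eq_some_iff] at hi
          exact hi.1
        rw [Finset.length_toList] at hlt
        exact ⟨⟨i, lt_of_lt_of_le hlt hF'.2⟩, hi⟩
  refine h1.trans (le_of_eq ?_)
  rw [Fintype.card_piFinset, prod_const, card_univ, Fintype.card_fin, card_insertNone]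

variable {G : Type*} [AddCommGroup G] [DecidableEq G]

/-- The size of a family of Sidon sets with `n` elements in `P`. -/
theorem card_family {P U S : Finset G} {n R k d b : ℕ} {p : ℝ} (h0 : 0 < p) (h1 : p ≤ 1)
    (hn1 : 1 ≤ n) (hS : ∀ a ∈ P, ∀ s ∈ U, a + s ∈ S) (hk : 12 * k ≤ R)
    (hPk : (#P : ℝ) * (1 - p ^ 3) ^ k < 1 / 2) (hb : 2 * p * n ≤ b)
    (hd : ∀ y : ℕ, ((y : ℝ) * #U) ^ 2 + 4 * ((n : ℝ) * #U) ^ 2 ≤
      #S * (y * #U) + 4 * (#S * (n * #U + (#U : ℝ) ^ 2 + R * #U * y)) → y ≤ d)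
    (𝒜 : Finset (Finset G)) (hSid : ∀ A ∈ 𝒜, Sid A) (hP : ∀ A ∈ 𝒜, A ⊆ P)
    (hn : ∀ A ∈ 𝒜, #A = n) :
    #𝒜 ≤ (#P + 1) ^ d * (#P + 1) ^ b := by
  classical
  have hex : ∀ A : Finset G, ∃ B : Finset G, A ∈ 𝒜 → (B ⊆ A ∧ #B ≤ b ∧
      ∀ x ∈ P, x ∉ A → R ≤ #(rep A x) → Kill B x) := by
    intro A
    by_cases hA : A ∈ 𝒜
    · obtain ⟨B, hB1, hB2, hB3⟩ := exists_kill h0 h1 (hSid A hA) (by
        rw [← card_pos, hn A hA]
        omega) P hk hPk
      refine ⟨B, fun _ => ⟨hB1, ?_, hB3⟩⟩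
      rw [hn A hA] at hB2
      exact_mod_cast hB2.trans hb
    · exact ⟨∅, fun h => absurd h hA⟩
  choose β hβ using hex
  have hfib : ∀ B ∈ 𝒜.image β, #(𝒜.filter (fun A => β A = B)) ≤ (#P + 1) ^ d := by
    intro B _
    set 𝒞 := 𝒜.filter (fun A => β A = B) with h𝒞
    have hm : ∀ A ∈ 𝒞, A ∈ 𝒜 ∧ β A = B := fun A hA => mem_filter.1 hA
    refine (card_le_card_shatterer 𝒞).trans ((card_le_card ?_).trans (card_small P d))
    intro Y hY
    rw [mem_shatterer] at hY
    rw [mem_filter, mem_powerset]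
    constructor
    · obtain ⟨A', hA', hYA'⟩ := hY (t := Y) subset_rfl
      exact (inter_eq_left.1 hYA').trans (hP A' (hm A' hA').1)
    · refine hd _ (shatter_bound (B := B) (n := n) (R := R) hS (𝒞 := 𝒞)
        (fun A hA => hSid A (hm A hA).1) (fun A hA => hP A (hm A hA).1)
        (fun A hA => hn A (hm A hA).1) ?_ ?_ hY)
      · intro A hA
        rw [← (hm A hA).2]
        exact (hβ A (hm A hA).1).1
      · intro A hA
        rw [← (hm A hA).2]
        exact (hβ A (hm A hA).1).2.2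
  refine (card_le_mul_card_image 𝒜 _ hfib).trans (Nat.mul_le_mul_left _ ?_)
  refine (card_le_card ?_).trans (card_small P b)
  intro B hB
  obtain ⟨A, hA, rfl⟩ := mem_image.1 hB
  rw [mem_filter, mem_powerset]
  exact ⟨(hβ A hA).1.trans (hP A hA), (hβ A hA).2.1⟩

end Pool.MP_d821cf_co.Sub
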