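import Pool.Agent.Lib.MP_d821cf_co.Sub.Costas

/-!
# `C(n) ≤ exp (200 n^(7/8) (log n)^(9/8))`
-/

set_option autoImplicit false

namespace Pool.MP_d821cf_co.Sub

open Finset

theorem C_triv (n : ℕ) : C n ≤ n ^ n := by
  classical
  unfold C
  rw [Nat.card_eq_fintype_card]
  refine (Fintype.card_subtype_le _).trans ?_
  rw [Fintype.card_perm, Fintype.card_fin]
  exact Nat.factorial_le_pow n

/-- The parameter. -/
noncomputable def X (n : ℕ) : ℝ := (2 ^ 29 * Real.log n / n) ^ (1 / 8 : ℝ)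

theorem X_pow {n : ℕ} (hn : 2 ≤ n) : X n ^ 8 = 2 ^ 29 * Real.log n / n := by
  have hn2 : (2 : ℝ) ≤ n := by exact_mod_cast hn
  have hL : 0 < Real.log n := Real.log_pos (by linarith)
  unfold X
  rw [← Real.rpow_natCast, ← Real.rpow_mul (by positivity)]
  norm_num

theorem X_pos {n : ℕ} (hn : 2 ≤ n) : 0 < X n := by
  have hn2 : (2 : ℝ) ≤ n := by exact_mod_cast hn
  have hL : 0 < Real.log n := Real.log_pos (by linarith)
  unfold X
  positivity

theorem X_final {n : ℕ} (hn : 2 ≤ n) : X n * n * Real.log n ≤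
    13 * ((n : ℝ) ^ (7 / 8 : ℝ) * Real.log n ^ (9 / 8 : ℝ)) := by
  have hn2 : (2 : ℝ) ≤ n := by exact_mod_cast hn
  have hn0 : (0 : ℝ) < n := by linarith
  have hL : 0 < Real.log n := Real.log_pos (by linarith)
  have h1 : (n : ℝ) ^ (7 / 8 : ℝ) = n / (n : ℝ) ^ (1 / 8 : ℝ) := by
    rw [show (7 / 8 : ℝ) = 1 - 1 / 8 by norm_num, Real.rpow_sub hn0, Real.rpow_one]
  have h2 : Real.log n ^ (9 / 8 : ℝ) = Real.log n * Real.log n ^ (1 / 8 : ℝ) := by
    rw [show (9 / 8 : ℝ) = 1 + 1 / 8 by norm_num, Real.rpow_add hL, Real.rpow_one]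
  have h3 : X n = (2 ^ 29 : ℝ) ^ (1 / 8 : ℝ) * Real.log n ^ (1 / 8 : ℝ) /
      (n : ℝ) ^ (1 / 8 : ℝ) := by
    unfold X
    rw [Real.div_rpow (by positivity) hn0.le, Real.mul_rpow (by positivity) hL.le]
  have h4 : (2 ^ 29 : ℝ) ^ (1 / 8 : ℝ) ≤ 13 := by
    have h5 : (13 : ℝ) = (13 ^ 8 : ℝ) ^ (1 / 8 : ℝ) := by
      rw [← Real.rpow_natCast, ← Real.rpow_mul (by norm_num)]
      norm_num
    rw [h5]
    exact Real.rpow_le_rpow (by positivity) (by norm_num) (by norm_num)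
  rw [h1, h2, h3]
  have h6 : 0 < (n : ℝ) ^ (1 / 8 : ℝ) := by positivity
  have h7 : 0 < Real.log n ^ (1 / 8 : ℝ) := by positivity
  calc (2 ^ 29 : ℝ) ^ (1 / 8 : ℝ) * Real.log n ^ (1 / 8 : ℝ) / (n : ℝ) ^ (1 / 8 : ℝ) * n *
        Real.log n
      = (2 ^ 29 : ℝ) ^ (1 / 8 : ℝ) * (n / (n : ℝ) ^ (1 / 8 : ℝ) *
        (Real.log n * Real.log n ^ (1 / 8 : ℝ))) := by ring
    _ ≤ _ := mul_le_mul_of_nonneg_right h4 (by positivity)

/-- **The number of Costas permutations is subexponential.** -/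
theorem C_subexp (n : ℕ) (hn : 2 ≤ n) :
    (C n : ℝ) ≤ Real.exp (200 * ((n : ℝ) ^ (7 / 8 : ℝ) * Real.log n ^ (9 / 8 : ℝ))) := by
  have hn2 : (2 : ℝ) ≤ n := by exact_mod_cast hn
  have hn0 : (0 : ℝ) < n := by linarith
  have hL : 0 < Real.log n := Real.log_pos (by linarith)
  have hL2 : (0.69 : ℝ) ≤ Real.log n := by
    have h1 := Real.log_two_gt_d9
    have h2 := Real.log_le_log (by norm_num) hn2
    linarith
  have hx0 := X_pos hn
  have hx8 := X_pow hn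
  have hfin := X_final hn
  obtain ⟨x, hx⟩ : ∃ x, x = X n := ⟨_, rfl⟩
  obtain ⟨L, hLd⟩ : ∃ L, L = Real.log n := ⟨_, rfl⟩
  rw [← hx] at hx0 hx8 hfin
  have hpos : 0 ≤ (n : ℝ) ^ (7 / 8 : ℝ) * Real.log n ^ (9 / 8 : ℝ) := by positivity
  by_cases hx1 : x ≤ 1
  swap
  · push Not at hx1
    have h1 : (C n : ℝ) ≤ (n : ℝ) ^ n := by exact_mod_cast C_triv n
    refine h1.trans ?_
    have h2 : (n : ℝ) ^ n = Real.exp (n * Real.log n) := by
      rw [Real.exp_nat_mul, Real.exp_log hn0]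
    rw [h2]
    refine Real.exp_le_exp.2 ?_
    have h3 : n * Real.log n ≤ x * n * Real.log n := by
      have : 0 < n * Real.log n := by positivity
      nlinarith
    linarith
  -- the main case
  have hxn : x ^ 8 * n = 2 ^ 29 * Real.log n := by
    rw [hx8]
    field_simp
  have hbig : (2 : ℝ) ^ 28 ≤ x ^ 8 * n := by
    rw [hxn]
    linarith
  have hpw : ∀ m : ℕ, m ≤ 8 → (2 : ℝ) ^ 28 ≤ x ^ m * n := by
    intro m hm
    refine hbig.trans (mul_le_mul_of_nonneg_right ?_ hn0.le)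
    exact pow_le_pow_of_le_one hx0.le hx1 hm
  obtain ⟨u, hu⟩ : ∃ u : ℕ, u = ⌊x ^ 2 * n / 128⌋₊ := ⟨_, rfl⟩
  have hu1 : (u : ℝ) ≤ x ^ 2 * n / 128 := by
    rw [hu]
    exact Nat.floor_le (by positivity)
  have hu2 : x ^ 2 * n / 256 ≤ u := by
    have h1 : x ^ 2 * n / 128 < u + 1 := by
      rw [hu]
      exact Nat.lt_floor_add_one _
    have h2 := hpw 2 (by norm_num)
    linarith
  have hu0 : (0 : ℝ) < u := lt_of_lt_of_le (by positivity) hu2
  have hun : (u : ℝ) ≤ n := by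
    have h1 : x ^ 2 ≤ 1 := pow_le_one₀ hx0.le hx1
    nlinarith
  obtain ⟨R, hR⟩ : ∃ R : ℕ, R = ⌊x * u ^ 2 / (64 * n)⌋₊ := ⟨_, rfl⟩
  have hR1 : (R : ℝ) ≤ x * u ^ 2 / (64 * n) := by
    rw [hR]
    exact Nat.floor_le (by positivity)
  have hR2 : x * u ^ 2 / (64 * n) < R + 1 := by
    rw [hR]
    exact Nat.lt_floor_add_one _
  have hR3 : 64 * n * R ≤ x * u ^ 2 := by
    rw [le_div_iff₀ (by positivity)] at hR1
    linarith
  obtain ⟨k, hk⟩ : ∃ k : ℕ, k = R / 12 := ⟨_, rfl⟩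
  have hk1 : 12 * k ≤ R := by omega
  have hk2 : (R : ℝ) ≤ 12 * k + 11 := by
    have : R ≤ 12 * k + 11 := by omega
    exact_mod_cast this
  -- the probability estimate
  have hxk : 4 * Real.log n ≤ x ^ 3 * k := by
    have h1 : x * u ^ 2 / (64 * n) ≤ 12 * k + 12 := by linarith
    have h2 : (x ^ 2 * n / 256) ^ 2 ≤ (u : ℝ) ^ 2 := pow_le_pow_left₀ (by positivity) hu2 2
    have h3 : x * (x ^ 2 * n / 256) ^ 2 / (64 * n) ≤ 12 * k + 12 := by
      refine le_trans ?_ h1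
      exact div_le_div_of_nonneg_right (mul_le_mul_of_nonneg_left h2 hx0.le) (by positivity)
    have h4 : x * (x ^ 2 * n / 256) ^ 2 / (64 * n) = x ^ 5 * n / 2 ^ 22 := by
      field_simp
      ring
    rw [h4] at h3
    have h5 : x ^ 3 * (x ^ 5 * n / 2 ^ 22) ≤ x ^ 3 * (12 * k + 12) :=
      mul_le_mul_of_nonneg_left h3 (by positivity)
    have h6 : x ^ 3 * (x ^ 5 * n / 2 ^ 22) = 128 * Real.log n := by
      have : x ^ 3 * (x ^ 5 * n / 2 ^ 22) = (x ^ 8 * n) / 2 ^ 22 := by ring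
      rw [this, hxn]
      ring
    have h7 : x ^ 3 ≤ 1 := pow_le_one₀ hx0.le hx1
    nlinarith
  have hPk : ((n : ℝ) ^ 2) * (1 - x ^ 3) ^ k < 1 / 2 := by
    have h7 : x ^ 3 ≤ 1 := pow_le_one₀ hx0.le hx1
    have h1 : (1 - x ^ 3) ^ k ≤ Real.exp (-(4 * Real.log n)) := by
      have h2 : 1 - x ^ 3 ≤ Real.exp (-(x ^ 3)) := by
        have := Real.add_one_le_exp (-(x ^ 3))
        linarith
      calc (1 - x ^ 3) ^ k ≤ (Real.exp (-(x ^ 3))) ^ k :=
            pow_le_pow_left₀ (by linarith) h2 _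
        _ = Real.exp (-(x ^ 3 * k)) := by
            rw [← Real.exp_nat_mul]
            congr 1
            ring
        _ ≤ _ := Real.exp_le_exp.2 (by linarith)
    have h3 : Real.exp (-(4 * Real.log n)) = 1 / (n : ℝ) ^ 4 := by
      have : -(4 * Real.log n) = -(Real.log ((n : ℝ) ^ 4)) := by
        rw [Real.log_pow]
        norm_num
      rw [this, Real.exp_neg, Real.exp_log (by positivity), one_div]
    rw [h3] at h1
    calc ((n : ℝ) ^ 2) * (1 - x ^ 3) ^ k ≤ (n : ℝ) ^ 2 * (1 / (n : ℝ) ^ 4) :=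
          mul_le_mul_of_nonneg_left h1 (by positivity)
      _ = 1 / (n : ℝ) ^ 2 := by
          field_simp
      _ < 1 / 2 := by
          refine one_div_lt_one_div_of_lt (by norm_num) ?_
          nlinarith
  have hbd : C n ≤ (n ^ 2 + 1) ^ ⌈x * n⌉₊ * (n ^ 2 + 1) ^ ⌈2 * x * n⌉₊ := by
    refine C_le_param (u := u) (R := R) (k := k) (p := x) hx0 hx1 (by omega) hk1 hPk
      (Nat.le_ceil _) ?_
    intro y hy
    by_contra hcon
    push Not at hcon
    have h1 : x * n ≤ y := by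
      have h2 := Nat.le_ceil (x * (n : ℝ))
      have h3 : ((⌈x * (n : ℝ)⌉₊ : ℕ) : ℝ) ≤ y := by exact_mod_cast hcon.le
      linarith
    have h23 : (2 : ℝ) ^ 23 ≤ x ^ 6 * n := by
      have := hpw 6 (by norm_num)
      linarith
    exact key_ineq (n := n) (u := u) (R := R) (y := y) (x := x) (by linarith) hu0 hun hx0 hx1
      hu2 hu1 (Nat.cast_nonneg _) hR3 h23 h1 hy
  have hbd' : (C n : ℝ) ≤ ((n : ℝ) ^ 2 + 1) ^ (⌈x * n⌉₊ + ⌈2 * x * n⌉₊) := by
    rw [pow_add]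
    exact_mod_cast hbd
  refine hbd'.trans ?_
  have hlog : Real.log ((n : ℝ) ^ 2 + 1) ≤ 3 * Real.log n := by
    have h1 : (n : ℝ) ^ 2 + 1 ≤ (n : ℝ) ^ 3 := by nlinarith [sq_nonneg ((n : ℝ) - 1)]
    calc Real.log ((n : ℝ) ^ 2 + 1) ≤ Real.log ((n : ℝ) ^ 3) :=
          Real.log_le_log (by positivity) h1
      _ = 3 * Real.log n := by
          rw [Real.log_pow]
          norm_num
  have hexp : ((⌈x * n⌉₊ + ⌈2 * x * n⌉₊ : ℕ) : ℝ) ≤ 5 * (x * n) := by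
    have h1 := (Nat.ceil_lt_add_one (show 0 ≤ x * (n : ℝ) by positivity)).le
    have h2 := (Nat.ceil_lt_add_one (show 0 ≤ 2 * x * (n : ℝ) by positivity)).le
    have h3 := hpw 1 (by norm_num)
    rw [pow_one] at h3
    push_cast
    linarith
  have hpos2 : (0 : ℝ) < (n : ℝ) ^ 2 + 1 := by positivity
  calc ((n : ℝ) ^ 2 + 1) ^ (⌈x * n⌉₊ + ⌈2 * x * n⌉₊)
      = Real.exp (((⌈x * n⌉₊ + ⌈2 * x * n⌉₊ : ℕ) : ℝ) * Real.log ((n : ℝ) ^ 2 + 1)) := by
        rw [Real.exp_nat_mul, Real.exp_log hpos2]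
    _ ≤ Real.exp ((5 * (x * n)) * (3 * Real.log n)) := by
        refine Real.exp_le_exp.2 (mul_le_mul hexp hlog ?_ (by positivity))
        refine Real.log_nonneg ?_
        have : (0 : ℝ) ≤ (n : ℝ) ^ 2 := by positivity
        linarith
    _ ≤ _ := by
        refine Real.exp_le_exp.2 ?_
        nlinarith

end Pool.MP_d821cf_co.Sub
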