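import Pool.Agent.Lib.MP_d821cf_co.Sub.Prob

/-!
# A small subset of a Sidon set excludes all points with many representations
-/

set_option autoImplicit false

namespace Pool.MP_d821cf_co.Sub

open Finset

/-- A maximal subfamily of pairwise disjoint sets. -/
theorem greedy {ι α : Type*} [DecidableEq ι] [DecidableEq α] (V : Finset ι) (T : ι → Finset α)
    (D : ℕ) (hne : ∀ a ∈ V, (T a).Nonempty)
    (hD : ∀ a ∈ V, #(V.filter (fun b => ¬ Disjoint (T b) (T a))) ≤ D) :
    ∃ S ⊆ V, (S : Set ι).PairwiseDisjoint T ∧ #V ≤ D * #S := by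
  classical
  obtain ⟨S, hS, hmax⟩ := Finset.exists_max_image
    (V.powerset.filter (fun S : Finset ι => (S : Set ι).PairwiseDisjoint T))
    (fun S : Finset ι => #S) ⟨∅, by simp⟩
  rw [mem_filter, mem_powerset] at hS
  refine ⟨S, hS.1, hS.2, ?_⟩
  have hcov : V ⊆ S.biUnion (fun s => V.filter (fun b => ¬ Disjoint (T b) (T s))) := by
    intro a ha
    rw [mem_biUnion]
    by_cases haS : a ∈ S
    · refine ⟨a, haS, ?_⟩
      rw [mem_filter]
      refine ⟨ha, ?_⟩
      rw [disjoint_self_iff_empty]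
      exact (hne a ha).ne_empty
    · by_contra hcon
      push Not at hcon
      have h1 : ∀ s ∈ S, Disjoint (T a) (T s) := by
        intro s hs
        have := hcon s hs
        rw [mem_filter] at this
        push Not at this
        exact this ha
      have h2 := hmax (insert a S) (by
        rw [mem_filter, mem_powerset]
        refine ⟨insert_subset ha hS.1, ?_⟩
        rw [coe_insert]
        refine hS.2.insert ?_
        intro s hs _
        exact h1 s hs)
      have h2 : #(insert a S) ≤ #S := h2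
      rw [card_insert_of_notMem haS] at h2
      omega
  calc #V ≤ #(S.biUnion (fun s => V.filter (fun b => ¬ Disjoint (T b) (T s)))) :=
        card_le_card hcov
    _ ≤ ∑ s ∈ S, #(V.filter (fun b => ¬ Disjoint (T b) (T s))) := card_biUnion_le
    _ ≤ ∑ _s ∈ S, D := sum_le_sum fun s hs => hD s (hS.1 hs)
    _ = D * #S := by rw [sum_const, smul_eq_mul, mul_comm]

variable {G : Type*} [AddCommGroup G] [DecidableEq G]

/-- The nonzero differences of elements of `A` are distinct. -/
def Sid (A : Finset G) : Prop :=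
  ∀ a ∈ A, ∀ b ∈ A, ∀ c ∈ A, ∀ d ∈ A, a ≠ b → a - b = c - d → a = c ∧ b = d

/-- The point `x` is excluded by `B`. -/
def Kill (B : Finset G) (x : G) : Prop :=
  ∃ a ∈ B, ∃ b ∈ B, ∃ c ∈ B, b ≠ c ∧ x - a = b - c

omit [DecidableEq G] in
theorem not_kill {A B : Finset G} (hA : Sid A) (hB : B ⊆ A) {x : G} (hx : x ∈ A)
    (hxB : x ∉ B) : ¬ Kill B x := by
  rintro ⟨a, ha, b, hb, c, hc, hbc, h⟩
  have := hA b (hB hb) c (hB hc) x hx a (hB ha) hbc h.symm
  exact hxB (this.1 ▸ hb)

open Classical in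
/-- The points `a` of `A` such that `x - a` is a nonzero difference of `A`. -/
noncomputable def rep (A : Finset G) (x : G) : Finset G :=
  A.filter (fun a => ∃ b ∈ A, ∃ c ∈ A, b ≠ c ∧ x - a = b - c)

theorem kill_family {A : Finset G} (hA : Sid A) {x : G} (hx : x ∉ A) :
    ∃ (S : Finset G) (T : G → Finset G), (∀ i ∈ S, T i ⊆ A) ∧ (∀ i ∈ S, #(T i) ≤ 3) ∧
      (S : Set G).PairwiseDisjoint T ∧ #(rep A x) ≤ 12 * #S ∧
      ∀ i ∈ S, ∀ B : Finset G, T i ⊆ B → Kill B x := by
  classical
  have hex : ∀ a : G, ∃ b c : G, a ∈ rep A x → (b ∈ A ∧ c ∈ A ∧ b ≠ c ∧ x - a = b - c) := by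
    intro a
    by_cases ha : a ∈ rep A x
    · obtain ⟨b, hb, c, hc, h1, h2⟩ := (mem_filter.1 ha).2
      exact ⟨b, c, fun _ => ⟨hb, hc, h1, h2⟩⟩
    · exact ⟨0, 0, fun h => absurd h ha⟩
  choose φ ψ hφψ using hex
  set V := rep A x with hV
  have hVA : ∀ a ∈ V, a ∈ A := fun a ha => (mem_filter.1 ha).1
  obtain ⟨T, hT⟩ : ∃ T : G → Finset G, T = fun a => {a, φ a, ψ a} := ⟨_, rfl⟩
  have hTm : ∀ a e, e ∈ T a ↔ e = a ∨ e = φ a ∨ e = ψ a := by
    intro a e
    rw [hT]
    simp only [mem_insert, mem_singleton]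
  have hT3 : ∀ a, #(T a) ≤ 3 := by
    intro a
    rw [hT]
    exact card_le_three
  -- multiplicity of an element
  have h1 : ∀ e ∈ A, #(V.filter (fun b => e ∈ T b)) ≤ 4 := by
    intro e he
    have hsub : V.filter (fun b => e ∈ T b) ⊆
        ({e} : Finset G) ∪ (V.filter (fun b => φ b = e) ∪ V.filter (fun b => ψ b = e)) := by
      intro b hb
      rw [mem_filter, hTm] at hb
      rw [mem_union, mem_union, mem_filter, mem_filter, mem_singleton]
      rcases hb.2 with h | h | h
      · exact Or.inl h.symm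
      · exact Or.inr (Or.inl ⟨hb.1, h.symm⟩)
      · exact Or.inr (Or.inr ⟨hb.1, h.symm⟩)
    have hc1 : #(V.filter (fun b => φ b = e)) ≤ 1 := by
      rw [card_le_one]
      intro b hb b' hb'
      rw [mem_filter] at hb hb'
      obtain ⟨g1, g2, g3, g4⟩ := hφψ b hb.1
      obtain ⟨g1', g2', g3', g4'⟩ := hφψ b' hb'.1
      rw [hb.2] at g4
      rw [hb'.2] at g4'
      have k1 : b - ψ b = b' - ψ b' := by
        have e1 : b - ψ b = x - e := by
          have : x - b = e - ψ b := g4
          have h5 : x = e - ψ b + b := by rw [← this]; abel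
          rw [h5]; abel
        have e2 : b' - ψ b' = x - e := by
          have : x - b' = e - ψ b' := g4'
          have h5 : x = e - ψ b' + b' := by rw [← this]; abel
          rw [h5]; abel
        rw [e1, e2]
      have k2 : b ≠ ψ b := by
        intro h
        apply hx
        have : x - b = e - b := by rw [g4, ← h]
        have : x = e := by
          have h6 : x = (x - b) + b := by abel
          rw [h6, this]; abel
        rw [this]
        exact he
      exact (hA b (hVA b hb.1) (ψ b) g2 b' (hVA b' hb'.1) (ψ b') g2' k2 k1).1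
    have hc2 : #(V.filter (fun b => ψ b = e)) ≤ 2 := by
      by_contra hcon
      push Not at hcon
      rw [two_lt_card] at hcon
      obtain ⟨a, ha, b, hb, c, hc, hab, hac, hbc⟩ := hcon
      rw [mem_filter] at ha hb hc
      obtain ⟨a1, a2, a3, a4⟩ := hφψ a ha.1
      obtain ⟨b1, b2, b3, b4⟩ := hφψ b hb.1
      obtain ⟨c1, c2, c3, c4⟩ := hφψ c hc.1
      rw [ha.2] at a4
      rw [hb.2] at b4
      rw [hc.2] at c4
      have ea : x + e = a + φ a := by
        have h5 : x = (φ a - e) + a := by rw [← a4]; abel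
        rw [h5]; abel
      have eb : x + e = b + φ b := by
        have h5 : x = (φ b - e) + b := by rw [← b4]; abel
        rw [h5]; abel
      have ec : x + e = c + φ c := by
        have h5 : x = (φ c - e) + c := by rw [← c4]; abel
        rw [h5]; abel
      have q1 : a - b = φ b - φ a := by
        rw [sub_eq_sub_iff_add_eq_add, ← ea, eb, add_comm]
      have q2 : a - c = φ c - φ a := by
        rw [sub_eq_sub_iff_add_eq_add, ← ea, ec, add_comm]
      have r1 := hA a (hVA a ha.1) b (hVA b hb.1) (φ b) b1 (φ a) a1 hab q1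
      have r2 := hA a (hVA a ha.1) c (hVA c hc.1) (φ c) c1 (φ a) a1 hac q2
      exact hbc (r1.2.trans r2.2.symm)
    have h3 := card_le_card hsub
    have h4 := card_union_le ({e} : Finset G)
      (V.filter (fun b => φ b = e) ∪ V.filter (fun b => ψ b = e))
    have h5 := card_union_le (V.filter (fun b => φ b = e)) (V.filter (fun b => ψ b = e))
    rw [card_singleton] at h4
    omega
  have hTA : ∀ a ∈ V, T a ⊆ A := by
    intro a ha e he
    obtain ⟨g1, g2, g3, g4⟩ := hφψ a ha
    rcases (hTm a e).1 he with h | h | h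
    · exact h ▸ hVA a ha
    · exact h ▸ g1
    · exact h ▸ g2
  obtain ⟨S, hSV, hSd, hSc⟩ := greedy V T 12 (fun a _ => ⟨a, (hTm a a).2 (Or.inl rfl)⟩) (by
    intro a ha
    have hsub : V.filter (fun b => ¬ Disjoint (T b) (T a)) ⊆
        (T a).biUnion (fun e => V.filter (fun b => e ∈ T b)) := by
      intro b hb
      rw [mem_filter, not_disjoint_iff] at hb
      obtain ⟨hbV, e, he1, he2⟩ := hb
      rw [mem_biUnion]
      exact ⟨e, he2, mem_filter.2 ⟨hbV, he1⟩⟩
    calc #(V.filter (fun b => ¬ Disjoint (T b) (T a)))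
        ≤ #((T a).biUnion (fun e => V.filter (fun b => e ∈ T b))) := card_le_card hsub
      _ ≤ ∑ e ∈ T a, #(V.filter (fun b => e ∈ T b)) := card_biUnion_le
      _ ≤ ∑ _e ∈ T a, 4 := sum_le_sum fun e he => h1 e (hTA a ha he)
      _ = #(T a) * 4 := by rw [sum_const, smul_eq_mul]
      _ ≤ 12 := by
          have := hT3 a
          omega)
  refine ⟨S, T, fun i hi => hTA i (hSV hi), fun i _ => hT3 i, hSd, hSc, ?_⟩
  intro i hi B hB
  obtain ⟨g1, g2, g3, g4⟩ := hφψ i (hSV hi)
  exact ⟨i, hB ((hTm i i).2 (Or.inl rfl)), φ i, hB ((hTm i _).2 (Or.inr (Or.inl rfl))), ψ i,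
    hB ((hTm i _).2 (Or.inr (Or.inr rfl))), g3, g4⟩

/-- A small subset of `A` excludes all points of `P` with many representations. -/
theorem exists_kill {p : ℝ} (h0 : 0 < p) (h1 : p ≤ 1) {A : Finset G} (hA : Sid A)
    (hne : A.Nonempty) (P : Finset G) {R k : ℕ} (hk : 12 * k ≤ R)
    (hP : (#P : ℝ) * (1 - p ^ 3) ^ k < 1 / 2) :
    ∃ B ⊆ A, (#B : ℝ) ≤ 2 * p * #A ∧ ∀ x ∈ P, x ∉ A → R ≤ #(rep A x) → Kill B x := by
  classical
  have hex : ∀ x : G, ∃ (S : Finset G) (T : G → Finset G), x ∉ A →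
      ((∀ i ∈ S, T i ⊆ A) ∧ (∀ i ∈ S, #(T i) ≤ 3) ∧
      (S : Set G).PairwiseDisjoint T ∧ #(rep A x) ≤ 12 * #S ∧
      ∀ i ∈ S, ∀ B : Finset G, T i ⊆ B → Kill B x) := by
    intro x
    by_cases hx : x ∈ A
    · exact ⟨∅, fun _ => ∅, fun h => absurd hx h⟩
    · obtain ⟨S, T, h⟩ := kill_family hA hx
      exact ⟨S, T, fun _ => h⟩
  choose S T hST using hex
  set X := P.filter (fun x => x ∉ A ∧ R ≤ #(rep A x)) with hX
  have hXm : ∀ x ∈ X, x ∈ P ∧ x ∉ A ∧ R ≤ #(rep A x) := fun x hx => mem_filter.1 hx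
  obtain ⟨B, hBA, hBc, hB⟩ := exists_sample h0 h1 hne X S T
    (fun x hx => (hST x (hXm x hx).2.1).1)
    (fun x hx => (hST x (hXm x hx).2.1).2.2.1)
    (fun x hx => (hST x (hXm x hx).2.1).2.1) (k := k)
    (fun x hx => by
      have h2 := (hST x (hXm x hx).2.1).2.2.2.1
      have h3 := (hXm x hx).2.2
      omega)
    (by
      refine lt_of_le_of_lt ?_ hP
      have hp3 : (0 : ℝ) ≤ 1 - p ^ 3 := by
        have := pow_le_one₀ (n := 3) h0.le h1
        linarith
      refine mul_le_mul_of_nonneg_right ?_ (pow_nonneg hp3 _)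
      exact_mod_cast card_le_card (filter_subset _ _))
  refine ⟨B, hBA, hBc, fun x hxP hxA hxR => ?_⟩
  have hxX : x ∈ X := mem_filter.2 ⟨hxP, hxA, hxR⟩
  obtain ⟨i, hi, hiB⟩ := hB x hxX
  exact (hST x hxA).2.2.2.2 i hi B hiB

end Pool.MP_d821cf_co.Sub
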