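import Pool.Agent.Lib.MP_d821cf_co.Sub.Kill

/-!
# Lindström's inequality and the comparison of two Sidon sets
-/

set_option autoImplicit false

namespace Pool.MP_d821cf_co.Sub

open Finset

variable {G : Type*} [AddCommGroup G] [DecidableEq G]

/-- The number of pairs of elements of `U` with difference `d`. -/
def g (U : Finset G) (d : G) : ℕ := ∑ s ∈ U, ∑ t ∈ U, if s - t = d then 1 else 0

/-- The number of representations of `z` as a sum of an element of `A` and one of `U`. -/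
def f (A U : Finset G) (z : G) : ℕ := ∑ a ∈ A, ∑ s ∈ U, if a + s = z then 1 else 0

/-- The nonzero differences of `A`. -/
def Dset (A : Finset G) : Finset G := A.offDiag.image (fun q => q.2 - q.1)

theorem mem_Dset {A : Finset G} {d : G} :
    d ∈ Dset A ↔ ∃ a ∈ A, ∃ b ∈ A, a ≠ b ∧ b - a = d := by
  unfold Dset
  rw [mem_image]
  constructor
  · rintro ⟨q, hq, h⟩
    rw [mem_offDiag] at hq
    exact ⟨q.1, hq.1, q.2, hq.2.1, hq.2.2, h⟩
  · rintro ⟨a, ha, b, hb, hab, h⟩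
    exact ⟨(a, b), mem_offDiag.2 ⟨ha, hb, hab⟩, h⟩

theorem zero_notMem_Dset (A : Finset G) : (0 : G) ∉ Dset A := by
  rw [mem_Dset]
  rintro ⟨a, _, b, _, hab, h⟩
  exact hab (sub_eq_zero.1 h).symm

theorem g_zero (U : Finset G) : g U 0 = #U := by
  unfold g
  rw [card_eq_sum_ones]
  refine sum_congr rfl fun s hs => ?_
  simp only [sub_eq_zero]
  rw [sum_ite_eq U s, if_pos hs]

theorem g_le (U : Finset G) (d : G) : g U d ≤ #U := by
  unfold g
  rw [card_eq_sum_ones]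
  refine sum_le_sum fun s _ => ?_
  have h : ∀ t ∈ U, (if s - t = d then 1 else 0) = if s - d = t then 1 else 0 := by
    intro t _
    congr 1
    rw [eq_iff_iff]
    constructor
    · intro h
      rw [← h]
      abel
    · intro h
      rw [← h]
      abel
  rw [sum_congr rfl h, sum_ite_eq]
  split_ifs <;> norm_num

theorem sum_g_le (U E : Finset G) : ∑ d ∈ E, g U d ≤ #U ^ 2 := by
  unfold g
  rw [sum_comm]
  have h : ∀ s ∈ U, ∑ d ∈ E, ∑ t ∈ U, (if s - t = d then 1 else 0) ≤ #U := by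
    intro s _
    rw [sum_comm, card_eq_sum_ones]
    refine sum_le_sum fun t _ => ?_
    rw [sum_ite_eq]
    split_ifs <;> norm_num
  calc ∑ s ∈ U, ∑ d ∈ E, ∑ t ∈ U, (if s - t = d then 1 else 0) ≤ ∑ _s ∈ U, #U :=
        sum_le_sum h
    _ = #U ^ 2 := by rw [sum_const, smul_eq_mul, sq]

theorem f_sum {A U S : Finset G} (hS : ∀ a ∈ A, ∀ s ∈ U, a + s ∈ S) :
    ∑ z ∈ S, f A U z = #A * #U := by
  unfold f
  rw [sum_comm]
  have h : ∀ a ∈ A, ∑ z ∈ S, ∑ s ∈ U, (if a + s = z then 1 else 0) = #U := by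
    intro a ha
    rw [sum_comm, card_eq_sum_ones]
    refine sum_congr rfl fun s hs => ?_
    rw [sum_ite_eq, if_pos (hS a ha s hs)]
  rw [sum_congr rfl h, sum_const, smul_eq_mul]

theorem f_sq {A U S : Finset G} (hS : ∀ a ∈ A, ∀ s ∈ U, a + s ∈ S) :
    ∑ z ∈ S, f A U z ^ 2 = ∑ a ∈ A, ∑ b ∈ A, g U (b - a) := by
  have h1 : ∀ z ∈ S, f A U z ^ 2 = ∑ a ∈ A, ∑ b ∈ A, ∑ s ∈ U, ∑ t ∈ U,
      (if a + s = z then 1 else 0) * (if b + t = z then 1 else 0) := by
    intro z _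
    unfold f
    rw [sq, sum_mul_sum]
    refine sum_congr rfl fun a _ => sum_congr rfl fun b _ => ?_
    rw [sum_mul_sum]
  rw [sum_congr rfl h1, sum_comm]
  refine sum_congr rfl fun a ha => ?_
  rw [sum_comm]
  refine sum_congr rfl fun b _ => ?_
  unfold g
  rw [sum_comm]
  refine sum_congr rfl fun s hs => ?_
  rw [sum_comm]
  refine sum_congr rfl fun t _ => ?_
  have h2 : ∀ z ∈ S, (if a + s = z then 1 else 0) * (if b + t = z then 1 else 0) =
      if a + s = z then (if b + t = a + s then 1 else 0) else 0 := by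
    intro z _
    by_cases h : a + s = z
    · rw [if_pos h, if_pos h, ← h, one_mul]
    · rw [if_neg h, if_neg h, zero_mul]
  rw [sum_congr rfl h2, sum_ite_eq, if_pos (hS a ha s hs)]
  congr 1
  rw [eq_iff_iff]
  constructor
  · intro h
    rw [sub_eq_sub_iff_add_eq_add, add_comm s a, ← h]
  · intro h
    rw [sub_eq_sub_iff_add_eq_add] at h
    rw [← h, add_comm]

theorem sum_pairs (A U : Finset G) : ∑ a ∈ A, ∑ b ∈ A, g U (b - a) =
    #A * #U + ∑ q ∈ A.offDiag, g U (q.2 - q.1) := by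
  rw [← sum_product', ← diag_union_offDiag, sum_union (disjoint_diag_offDiag _)]
  congr 1
  rw [sum_diag, card_eq_sum_ones, sum_mul]
  refine sum_congr rfl fun a _ => ?_
  rw [sub_self, g_zero, one_mul]

omit [DecidableEq G] in
theorem Sid.inj {A : Finset G} (hA : Sid A) {q q' : G × G} (h1 : q.1 ∈ A) (h2 : q.2 ∈ A)
    (h3 : q'.1 ∈ A) (h4 : q'.2 ∈ A) (hq : q.1 ≠ q.2) (h : q.2 - q.1 = q'.2 - q'.1) : q = q' := by
  have := hA q.2 h2 q.1 h1 q'.2 h4 q'.1 h3 hq.symm h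
  exact Prod.ext this.2 this.1

theorem sum_offDiag {A U : Finset G} (hA : Sid A) :
    ∑ q ∈ A.offDiag, g U (q.2 - q.1) = ∑ d ∈ Dset A, g U d := by
  unfold Dset
  rw [sum_image]
  intro q hq q' hq' h
  rw [mem_coe, mem_offDiag] at hq hq'
  exact hA.inj hq.1 hq.2.1 hq'.1 hq'.2.1 hq.2.2 h

/-- Cauchy–Schwarz. -/
theorem cs {A U S : Finset G} (hS : ∀ a ∈ A, ∀ s ∈ U, a + s ∈ S) :
    (#A * #U) ^ 2 ≤ #S * (#A * #U + ∑ q ∈ A.offDiag, g U (q.2 - q.1)) := by
  rw [← sum_pairs, ← f_sq hS, ← f_sum hS]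
  exact sq_sum_le_card_mul_sum_sq

/-- Lindström's inequality: few small differences are missing. -/
theorem lindstrom {A U S : Finset G} (hA : Sid A) (hS : ∀ a ∈ A, ∀ s ∈ U, a + s ∈ S)
    {E : Finset G} (hE : Disjoint E (Dset A)) :
    (#A * #U) ^ 2 + #S * ∑ d ∈ E, g U d ≤ #S * (#A * #U + #U ^ 2) := by
  have h1 := cs hS
  rw [sum_offDiag hA] at h1
  have h2 : ∑ d ∈ E, g U d + ∑ d ∈ Dset A, g U d ≤ #U ^ 2 := by
    rw [← sum_union hE]
    exact sum_g_le _ _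
  calc (#A * #U) ^ 2 + #S * ∑ d ∈ E, g U d
      ≤ #S * (#A * #U + ∑ d ∈ Dset A, g U d) + #S * ∑ d ∈ E, g U d := by omega
    _ = #S * (#A * #U + (∑ d ∈ E, g U d + ∑ d ∈ Dset A, g U d)) := by ring
    _ ≤ #S * (#A * #U + #U ^ 2) := by
        refine Nat.mul_le_mul_left _ ?_
        omega

/-- Comparison of two Sidon sets `A`, `A'`: `Z` is contained in both, `W` in `A'` only, and the
points of `W` have few representations by `A`. -/
theorem compare {A A' U S Z W : Finset G} (hA : Sid A) (hA' : Sid A')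
    (hS : ∀ a ∈ A, ∀ s ∈ U, a + s ∈ S) (hZ : Z ⊆ A) (hZ' : Z ⊆ A') (hW : W ⊆ A')
    (hWA : ∀ j ∈ W, j ∉ A) {R : ℕ} (hR : ∀ j ∈ W, #(rep A j) ≤ R) :
    (#A * #U) ^ 2 + #S * ∑ q ∈ Z ×ˢ W, g U (q.2 - q.1) ≤
      #S * (#A * #U + #U ^ 2 + R * #U * #W) := by
  classical
  set Q := Z ×ˢ W with hQ
  set Q1 := Q.filter (fun q => q.2 - q.1 ∈ Dset A) with hQ1
  set Q2 := Q.filter (fun q => ¬ (q.2 - q.1 ∈ Dset A)) with hQ2
  have hsplit : ∑ q ∈ Q, g U (q.2 - q.1) = ∑ q ∈ Q1, g U (q.2 - q.1) +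
      ∑ q ∈ Q2, g U (q.2 - q.1) := (sum_filter_add_sum_filter_not _ _ _).symm
  have hmem : ∀ q ∈ Q, q.1 ∈ Z ∧ q.2 ∈ W := fun q hq => mem_product.1 hq
  -- pairs with a difference in `Dset A`
  have h1 : ∑ q ∈ Q1, g U (q.2 - q.1) ≤ R * #U * #W := by
    have hc : #Q1 ≤ R * #W := by
      have hsub : Q1 ⊆ W.biUnion (fun j => (rep A j).image (fun i => (i, j))) := by
        intro q hq
        rw [hQ1, mem_filter, mem_Dset] at hq
        obtain ⟨hqQ, a, ha, b, hb, hab, h⟩ := hq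
        rw [mem_biUnion]
        refine ⟨q.2, (hmem q hqQ).2, ?_⟩
        rw [mem_image]
        refine ⟨q.1, ?_, rfl⟩
        unfold rep
        rw [mem_filter]
        exact ⟨hZ (hmem q hqQ).1, b, hb, a, ha, hab.symm, h.symm⟩
      calc #Q1 ≤ #(W.biUnion (fun j => (rep A j).image (fun i => (i, j)))) :=
            card_le_card hsub
        _ ≤ ∑ j ∈ W, #((rep A j).image (fun i => (i, j))) := card_biUnion_le
        _ ≤ ∑ _j ∈ W, R := sum_le_sum fun j hj => card_image_le.trans (hR j hj)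
        _ = R * #W := by rw [sum_const, smul_eq_mul, mul_comm]
    calc ∑ q ∈ Q1, g U (q.2 - q.1) ≤ ∑ _q ∈ Q1, #U := sum_le_sum fun q _ => g_le _ _
      _ = #Q1 * #U := by rw [sum_const, smul_eq_mul]
      _ ≤ (R * #W) * #U := Nat.mul_le_mul_right _ hc
      _ = R * #U * #W := by ring
  -- the other pairs
  have h2 : ∑ q ∈ Q2, g U (q.2 - q.1) = ∑ d ∈ Q2.image (fun q => q.2 - q.1), g U d := by
    rw [sum_image]
    intro q hq q' hq' h
    rw [mem_coe, hQ2, mem_filter] at hq hq'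
    obtain ⟨a1, a2⟩ := hmem q hq.1
    obtain ⟨b1, b2⟩ := hmem q' hq'.1
    exact hA'.inj (hZ' a1) (hW a2) (hZ' b1) (hW b2) (fun he => hWA _ a2 (he ▸ hZ a1)) h
  have h3 := lindstrom (S := S) (U := U) hA hS (E := Q2.image (fun q => q.2 - q.1)) (by
    rw [disjoint_left]
    intro d hd hd2
    rw [mem_image] at hd
    obtain ⟨q, hq, rfl⟩ := hd
    rw [hQ2, mem_filter] at hq
    exact hq.2 hd2)
  rw [hsplit, h2]
  calc (#A * #U) ^ 2 + #S * (∑ q ∈ Q1, g U (q.2 - q.1) +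
        ∑ d ∈ Q2.image (fun q => q.2 - q.1), g U d)
      = ((#A * #U) ^ 2 + #S * ∑ d ∈ Q2.image (fun q => q.2 - q.1), g U d) +
        #S * ∑ q ∈ Q1, g U (q.2 - q.1) := by ring
    _ ≤ #S * (#A * #U + #U ^ 2) + #S * (R * #U * #W) :=
        Nat.add_le_add h3 (Nat.mul_le_mul_left _ h1)
    _ = #S * (#A * #U + #U ^ 2 + R * #U * #W) := by ring

end Pool.MP_d821cf_co.Sub
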