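import Pool.Agent.Lib.MP_d821cf_co.Sub.Family
import Pool.Agent.Lib.MP_d821cf_co.Defs

/-!
# The number of Costas permutations is subexponential
-/

set_option autoImplicit false

namespace Pool.MP_d821cf_co.Sub

open Finset

theorem key_ineq {n u R y x : ℝ} (hn : 1 ≤ n) (hu0 : 0 < u) (hun : u ≤ n) (hx0 : 0 < x)
    (hx1 : x ≤ 1) (h1 : x ^ 2 * n / 256 ≤ u) (h2 : u ≤ x ^ 2 * n / 128)
    (hR : 0 ≤ R)
    (h3 : 64 * n * R ≤ x * u ^ 2) (h4 : 2 ^ 23 ≤ x ^ 6 * n) (hy : x * n ≤ y) :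
    ¬ ((y * u ^ 2) ^ 2 + 4 * (n * u ^ 2) ^ 2 ≤ (n + u) ^ 2 * (y * u ^ 2) +
      4 * ((n + u) ^ 2 * (n * u ^ 2 + (u ^ 2) ^ 2 + R * u ^ 2 * y))) := by
  intro h
  have hn0 : 0 < n := by linarith
  have hy0 : 0 < y := lt_of_lt_of_le (mul_pos hx0 hn0) hy
  have hu2 : 0 < u ^ 2 := by positivity
  have h5 : y ^ 2 * u ^ 2 + 4 * n ^ 2 * u ^ 2 ≤
      (n + u) ^ 2 * (y + 4 * n + 4 * R * y) + (n + u) ^ 2 * (4 * u ^ 2) := by
    refine le_of_mul_le_mul_left ?_ hu2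
    calc u ^ 2 * (y ^ 2 * u ^ 2 + 4 * n ^ 2 * u ^ 2) = (y * u ^ 2) ^ 2 + 4 * (n * u ^ 2) ^ 2 := by
          ring
      _ ≤ _ := h
      _ = _ := by ring
  have h6 : (n + u) ^ 2 ≤ 4 * n ^ 2 := by nlinarith
  have h7 : (n + u) ^ 2 * (4 * u ^ 2) ≤ 4 * n ^ 2 * u ^ 2 + 12 * n * u ^ 3 := by
    have : (n + u) ^ 2 ≤ n ^ 2 + 3 * n * u := by nlinarith
    calc (n + u) ^ 2 * (4 * u ^ 2) ≤ (n ^ 2 + 3 * n * u) * (4 * u ^ 2) :=
          mul_le_mul_of_nonneg_right this (by positivity)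
      _ = _ := by ring
  have h8 : (n + u) ^ 2 * (y + 4 * n + 4 * R * y) ≤ 4 * n ^ 2 * (y + 4 * n + 4 * R * y) :=
    mul_le_mul_of_nonneg_right h6 (by positivity)
  have hB1 : 32 * n ^ 2 ≤ y * u ^ 2 := by
    have e1 : (x ^ 2 * n / 256) ^ 2 ≤ u ^ 2 := pow_le_pow_left₀ (by positivity) h1 2
    have e2 : (x * n) * (x ^ 2 * n / 256) ^ 2 ≤ y * u ^ 2 :=
      mul_le_mul hy e1 (by positivity) hy0.le
    have e3 : x ^ 6 * n ≤ x ^ 5 * n := by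
      refine mul_le_mul_of_nonneg_right ?_ hn0.le
      exact pow_le_pow_of_le_one hx0.le hx1 (by norm_num)
    have e4 : (x * n) * (x ^ 2 * n / 256) ^ 2 = (x ^ 5 * n) * n ^ 2 / 65536 := by ring
    have e5 : 2 ^ 23 * n ^ 2 ≤ (x ^ 5 * n) * n ^ 2 :=
      mul_le_mul_of_nonneg_right (h4.trans e3) (by positivity)
    rw [e4] at e2
    have e6 : 0 ≤ n ^ 2 := by positivity
    linarith
  have hB2 : 128 * n ^ 3 ≤ y ^ 2 * u ^ 2 := by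
    have e1 : (x ^ 2 * n / 256) ^ 2 ≤ u ^ 2 := pow_le_pow_left₀ (by positivity) h1 2
    have e0 : (x * n) ^ 2 ≤ y ^ 2 := pow_le_pow_left₀ (by positivity) hy 2
    have e2 : (x * n) ^ 2 * (x ^ 2 * n / 256) ^ 2 ≤ y ^ 2 * u ^ 2 :=
      mul_le_mul e0 e1 (by positivity) (by positivity)
    have e4 : (x * n) ^ 2 * (x ^ 2 * n / 256) ^ 2 = (x ^ 6 * n) * n ^ 3 / 65536 := by ring
    have e5 : 2 ^ 23 * n ^ 3 ≤ (x ^ 6 * n) * n ^ 3 :=
      mul_le_mul_of_nonneg_right h4 (by positivity)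
    rw [e4] at e2
    linarith
  have hB3 : 12 * n * u ^ 3 ≤ 12 / 128 * (y ^ 2 * u ^ 2) := by
    have e0 : (x * n) ^ 2 ≤ y ^ 2 := pow_le_pow_left₀ (by positivity) hy 2
    have e1 : n * u ≤ (x * n) ^ 2 / 128 := by
      calc n * u ≤ n * (x ^ 2 * n / 128) := mul_le_mul_of_nonneg_left h2 hn0.le
        _ = _ := by ring
    calc 12 * n * u ^ 3 = 12 * (n * u) * u ^ 2 := by ring
      _ ≤ 12 * (y ^ 2 / 128) * u ^ 2 := by
          refine mul_le_mul_of_nonneg_right ?_ hu2.le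
          linarith
      _ = _ := by ring
  have hB4 : 16 * n ^ 2 * (R * y) ≤ 1 / 4 * (y ^ 2 * u ^ 2) := by
    have e1 : n * y * (64 * n * R) ≤ n * y * (x * u ^ 2) :=
      mul_le_mul_of_nonneg_left h3 (by positivity)
    have e2 : (x * n) * (y * u ^ 2) ≤ y * (y * u ^ 2) :=
      mul_le_mul_of_nonneg_right hy (by positivity)
    nlinarith
  have hB1' : 4 * n ^ 2 * y ≤ y ^ 2 * u ^ 2 / 8 := by nlinarith
  have hpos : 0 < y ^ 2 * u ^ 2 := by positivity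
  nlinarith

end Pool.MP_d821cf_co.Sub
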