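import Mathlib

/-!
# A random subset containing one set of each of many disjoint families

For a finite set `A` and `p ∈ [0,1]` the weight of `B ⊆ A` is `p ^ #B * (1 - p) ^ (#A - #B)`.
-/

set_option autoImplicit false

namespace Pool.MP_d821cf_co.Sub

open Finset

variable {α : Type*} [DecidableEq α]

/-- The weight of `B` as a random subset of `A` of density `p`. -/
noncomputable def w (p : ℝ) (A B : Finset α) : ℝ := p ^ #B * (1 - p) ^ (#A - #B)

omit [DecidableEq α] in
theorem w_nonneg {p : ℝ} (h0 : 0 ≤ p) (h1 : p ≤ 1) (A B : Finset α) : 0 ≤ w p A B :=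
  mul_nonneg (pow_nonneg h0 _) (pow_nonneg (by linarith) _)

omit [DecidableEq α] in
theorem sum_w (p : ℝ) (A : Finset α) : ∑ B ∈ A.powerset, w p A B = 1 := by
  have h := Finset.sum_pow_mul_eq_add_pow p (1 - p) A
  unfold w
  rw [h]
  norm_num

theorem sum_w_superset (p : ℝ) {A T : Finset α} (hT : T ⊆ A) :
    ∑ B ∈ A.powerset with T ⊆ B, w p A B = p ^ #T := by
  have h : ∑ B ∈ A.powerset with T ⊆ B, w p A B =
      ∑ B' ∈ (A \ T).powerset, p ^ #T * w p (A \ T) B' := by
    refine Finset.sum_bij' (fun B _ => B \ T) (fun B' _ => T ∪ B') ?_ ?_ ?_ ?_ ?_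
    · intro B hB
      rw [mem_filter, mem_powerset] at hB
      rw [mem_powerset]
      exact sdiff_subset_sdiff hB.1 subset_rfl
    · intro B' hB'
      rw [mem_powerset] at hB'
      rw [mem_filter, mem_powerset]
      exact ⟨union_subset hT (hB'.trans sdiff_subset), subset_union_left⟩
    · intro B hB
      rw [mem_filter, mem_powerset] at hB
      exact union_sdiff_of_subset hB.2
    · intro B' hB'
      rw [mem_powerset] at hB'
      rw [union_sdiff_left]
      exact sdiff_eq_self_of_disjoint (disjoint_of_subset_left hB' sdiff_disjoint)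
    · intro B hB
      rw [mem_filter, mem_powerset] at hB
      unfold w
      rw [card_sdiff_of_subset hB.2, card_sdiff_of_subset hT]
      have h1 : #T ≤ #B := card_le_card hB.2
      have h2 : #B ≤ #A := card_le_card hB.1
      rw [← mul_assoc, ← pow_add]
      congr 2
      · omega
      · omega
  rw [h, ← Finset.mul_sum, sum_w, mul_one]

theorem sum_w_avoid (p : ℝ) {ι : Type*} [DecidableEq ι] {A : Finset α} (s : Finset ι)
    (T : ι → Finset α) (hT : ∀ i ∈ s, T i ⊆ A) (hd : (s : Set ι).PairwiseDisjoint T) :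
    ∑ B ∈ A.powerset with (∀ i ∈ s, ¬ T i ⊆ B), w p A B = ∏ i ∈ s, (1 - p ^ #(T i)) := by
  have h1 : ∀ B : Finset α, (if ∀ i ∈ s, ¬ T i ⊆ B then (1 : ℝ) else 0) =
      ∑ u ∈ s.powerset, (-1) ^ #u * (if u.biUnion T ⊆ B then (1 : ℝ) else 0) := by
    intro B
    have h2 : (if ∀ i ∈ s, ¬ T i ⊆ B then (1 : ℝ) else 0) =
        ∏ i ∈ s, (1 + -(if T i ⊆ B then (1 : ℝ) else 0)) := by
      split_ifs with h
      · symm
        refine prod_eq_one fun i hi => ?_
        rw [if_neg (h i hi)]
        norm_num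
      · push Not at h
        obtain ⟨i, hi, hiB⟩ := h
        symm
        refine prod_eq_zero hi ?_
        rw [if_pos hiB]
        norm_num
    rw [h2, prod_one_add]
    refine sum_congr rfl fun u hu => ?_
    rw [prod_neg]
    congr 1
    split_ifs with h
    · refine prod_eq_one fun i hi => ?_
      rw [if_pos ((subset_biUnion_of_mem T hi).trans h)]
    · rw [biUnion_subset] at h
      push Not at h
      obtain ⟨i, hi, hiB⟩ := h
      refine prod_eq_zero hi ?_
      rw [if_neg hiB]
  calc ∑ B ∈ A.powerset with (∀ i ∈ s, ¬ T i ⊆ B), w p A B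
      = ∑ B ∈ A.powerset, (if ∀ i ∈ s, ¬ T i ⊆ B then (1 : ℝ) else 0) * w p A B := by
        rw [sum_filter]
        refine sum_congr rfl fun B _ => ?_
        split_ifs <;> simp
    _ = ∑ B ∈ A.powerset, ∑ u ∈ s.powerset,
          (-1) ^ #u * ((if u.biUnion T ⊆ B then (1 : ℝ) else 0) * w p A B) := by
        refine sum_congr rfl fun B _ => ?_
        rw [h1, sum_mul]
        refine sum_congr rfl fun u _ => ?_
        ring
    _ = ∑ u ∈ s.powerset, (-1) ^ #u *
          ∑ B ∈ A.powerset, ((if u.biUnion T ⊆ B then (1 : ℝ) else 0) * w p A B) := by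
        rw [sum_comm]
        refine sum_congr rfl fun u _ => ?_
        rw [mul_sum]
    _ = ∑ u ∈ s.powerset, ∏ i ∈ u, -(p ^ #(T i)) := by
        refine sum_congr rfl fun u hu => ?_
        rw [mem_powerset] at hu
        have h3 : ∑ B ∈ A.powerset, ((if u.biUnion T ⊆ B then (1 : ℝ) else 0) * w p A B) =
            ∑ B ∈ A.powerset with u.biUnion T ⊆ B, w p A B := by
          rw [sum_filter]
          refine sum_congr rfl fun B _ => ?_
          split_ifs <;> simp
        rw [h3, sum_w_superset p (biUnion_subset.2 fun i hi => hT i (hu hi)),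
          card_biUnion (fun i hi j hj hij => hd (hu hi) (hu hj) hij), prod_neg, prod_pow_eq_pow_sum]
    _ = ∏ i ∈ s, (1 - p ^ #(T i)) := by
        rw [← prod_one_add]
        refine prod_congr rfl fun i _ => ?_
        ring

/-- The expected size. -/
theorem sum_w_card (p : ℝ) (A : Finset α) :
    ∑ B ∈ A.powerset, w p A B * #B = p * #A := by
  have h1 : ∀ B ∈ A.powerset, w p A B * #B =
      ∑ a ∈ A, if a ∈ B then w p A B else 0 := by
    intro B hB
    rw [mem_powerset] at hB
    rw [← sum_filter, filter_mem_eq_inter, inter_eq_right.2 hB, sum_const, nsmul_eq_mul]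
    ring
  rw [sum_congr rfl h1, sum_comm]
  have h2 : ∀ a ∈ A, (∑ B ∈ A.powerset, if a ∈ B then w p A B else 0) = p := by
    intro a ha
    have h3 := sum_w_superset p (A := A) (T := {a}) (singleton_subset_iff.2 ha)
    rw [card_singleton, pow_one, sum_filter] at h3
    refine Eq.trans (sum_congr rfl fun B _ => ?_) h3
    simp only [singleton_subset_iff]
  rw [sum_congr rfl h2, sum_const, nsmul_eq_mul]
  ring

/-- There is a small subset containing one of the sets of every family. -/
theorem exists_sample {p : ℝ} (h0 : 0 < p) (h1 : p ≤ 1) {A : Finset α} (hA : A.Nonempty)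
    {β ι : Type*} [DecidableEq ι] (X : Finset β) (s : β → Finset ι) (T : β → ι → Finset α)
    (hT : ∀ x ∈ X, ∀ i ∈ s x, T x i ⊆ A)
    (hd : ∀ x ∈ X, ((s x : Finset ι) : Set ι).PairwiseDisjoint (T x))
    (hc : ∀ x ∈ X, ∀ i ∈ s x, #(T x i) ≤ 3) {k : ℕ} (hk : ∀ x ∈ X, k ≤ #(s x))
    (hX : (#X : ℝ) * (1 - p ^ 3) ^ k < 1 / 2) :
    ∃ B ⊆ A, (#B : ℝ) ≤ 2 * p * #A ∧ ∀ x ∈ X, ∃ i ∈ s x, T x i ⊆ B := by
  classical
  by_contra hcon
  push Not at hcon
  have hA0 : (0 : ℝ) < #A := by exact_mod_cast hA.card_pos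
  have hp3 : (0 : ℝ) ≤ 1 - p ^ 3 := by
    have := pow_le_one₀ (n := 3) h0.le h1
    linarith
  have hp3' : 1 - p ^ 3 ≤ 1 := by
    have : 0 ≤ p ^ 3 := by positivity
    linarith
  have hw : ∀ B, 0 ≤ w p A B := w_nonneg h0.le h1 A
  -- pointwise bound
  have hpt : ∀ B ∈ A.powerset, w p A B ≤ (w p A B * #B) / (2 * p * #A) +
      ∑ x ∈ X, if (∀ i ∈ s x, ¬ T x i ⊆ B) then w p A B else 0 := by
    intro B hB
    rw [mem_powerset] at hB
    have hs0 : 0 ≤ ∑ x ∈ X, if (∀ i ∈ s x, ¬ T x i ⊆ B) then w p A B else 0 :=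
      sum_nonneg fun x _ => by split_ifs <;> [exact hw B; exact le_rfl]
    by_cases hB2 : (#B : ℝ) ≤ 2 * p * #A
    · obtain ⟨x, hx, hxB⟩ := hcon B hB hB2
      have h3 : w p A B ≤ ∑ x ∈ X, if (∀ i ∈ s x, ¬ T x i ⊆ B) then w p A B else 0 := by
        refine le_trans ?_ (single_le_sum (f := fun x => if (∀ i ∈ s x, ¬ T x i ⊆ B) then
          w p A B else 0) (fun x _ => by
            split_ifs <;> [exact hw B; exact le_rfl]) hx)
        rw [if_pos hxB]
      have h4 : 0 ≤ (w p A B * #B) / (2 * p * #A) :=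
        div_nonneg (mul_nonneg (hw B) (Nat.cast_nonneg _)) (by positivity)
      linarith
    · push Not at hB2
      have h3 : w p A B ≤ (w p A B * #B) / (2 * p * #A) := by
        rw [le_div_iff₀ (by positivity)]
        exact mul_le_mul_of_nonneg_left hB2.le (hw B)
      linarith
  have h2 := sum_le_sum hpt
  rw [sum_w, sum_add_distrib, ← sum_div, sum_w_card, sum_comm] at h2
  have h3 : p * #A / (2 * p * #A) = 1 / 2 := by
    field_simp
  have h4 : ∀ x ∈ X, (∑ B ∈ A.powerset, if (∀ i ∈ s x, ¬ T x i ⊆ B) then w p A B else 0) ≤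
      (1 - p ^ 3) ^ k := by
    intro x hx
    rw [← sum_filter, sum_w_avoid p (s x) (T x) (hT x hx) (hd x hx)]
    calc ∏ i ∈ s x, (1 - p ^ #(T x i)) ≤ ∏ _i ∈ s x, (1 - p ^ 3) := by
          refine prod_le_prod (fun i _ => ?_) (fun i hi => ?_)
          · have := pow_le_one₀ (n := #(T x i)) h0.le h1
            linarith
          · have := pow_le_pow_of_le_one h0.le h1 (hc x hx i hi)
            linarith
      _ = (1 - p ^ 3) ^ #(s x) := by rw [prod_const]
      _ ≤ (1 - p ^ 3) ^ k := pow_le_pow_of_le_one hp3 hp3' (hk x hx)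
  have h5 := sum_le_sum h4
  rw [sum_const, nsmul_eq_mul] at h5
  linarith

end Pool.MP_d821cf_co.Sub
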