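import Pool.Agent.Lib.MP_d821cf_co.Sub.Final

/-!
# Long range monotonicity of the proportion of Costas permutations
-/

set_option autoImplicit false

namespace Pool.MP_d821cf_co.Sub

open Finset

theorem factorial_ge (m : ℕ) : ((m : ℝ) / Real.exp 1) ^ m ≤ (m.factorial : ℝ) := by
  have h1 := Real.pow_div_factorial_le_exp (m : ℝ) (Nat.cast_nonneg _) m
  have h2 : (0 : ℝ) < m.factorial := by exact_mod_cast m.factorial_pos
  rw [div_le_iff₀ h2] at h1
  have h3 : Real.exp (m : ℝ) = Real.exp 1 ^ m := by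
    rw [← Real.exp_nat_mul, mul_one]
  rw [h3] at h1
  rw [div_pow, div_le_iff₀ (by positivity)]
  linarith

/-- An exponential bound. -/
theorem C_exp {n : ℕ} (hn : 2 ≤ n) : (C n : ℝ) ≤ Real.exp 2400 ^ n := by
  have hn2 : (2 : ℝ) ≤ n := by exact_mod_cast hn
  have hn0 : (0 : ℝ) < n := by linarith
  have hL : 0 < Real.log n := Real.log_pos (by linarith)
  refine (C_subexp n hn).trans ?_
  rw [← Real.exp_nat_mul]
  refine Real.exp_le_exp.2 ?_
  have h1 : Real.log n ≤ 9 * (n : ℝ) ^ (1 / 9 : ℝ) := by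
    have := Real.log_le_rpow_div hn0.le (show (0 : ℝ) < 1 / 9 by norm_num)
    linarith
  have h2 : Real.log n ^ (9 / 8 : ℝ) ≤ (9 * (n : ℝ) ^ (1 / 9 : ℝ)) ^ (9 / 8 : ℝ) :=
    Real.rpow_le_rpow hL.le h1 (by norm_num)
  have h3 : (9 * (n : ℝ) ^ (1 / 9 : ℝ)) ^ (9 / 8 : ℝ) =
      9 ^ (9 / 8 : ℝ) * (n : ℝ) ^ (1 / 8 : ℝ) := by
    rw [Real.mul_rpow (by norm_num) (by positivity), ← Real.rpow_mul hn0.le]
    norm_num
  have h4 : (9 : ℝ) ^ (9 / 8 : ℝ) ≤ 12 := by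
    have h5 : (12 : ℝ) = (12 ^ 8 : ℝ) ^ (1 / 8 : ℝ) := by
      rw [← Real.rpow_natCast, ← Real.rpow_mul (by norm_num)]
      norm_num
    have h6 : (9 : ℝ) ^ (9 / 8 : ℝ) = (9 ^ 9 : ℝ) ^ (1 / 8 : ℝ) := by
      rw [← Real.rpow_natCast, ← Real.rpow_mul (by norm_num)]
      norm_num
    rw [h5, h6]
    exact Real.rpow_le_rpow (by positivity) (by norm_num) (by norm_num)
  rw [h3] at h2
  have h7 : (n : ℝ) ^ (7 / 8 : ℝ) * (n : ℝ) ^ (1 / 8 : ℝ) = n := by
    rw [← Real.rpow_add hn0]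
    norm_num
  have h8 : (n : ℝ) ^ (7 / 8 : ℝ) * Real.log n ^ (9 / 8 : ℝ) ≤ 12 * n := by
    calc (n : ℝ) ^ (7 / 8 : ℝ) * Real.log n ^ (9 / 8 : ℝ)
        ≤ (n : ℝ) ^ (7 / 8 : ℝ) * (9 ^ (9 / 8 : ℝ) * (n : ℝ) ^ (1 / 8 : ℝ)) :=
          mul_le_mul_of_nonneg_left h2 (by positivity)
      _ = 9 ^ (9 / 8 : ℝ) * ((n : ℝ) ^ (7 / 8 : ℝ) * (n : ℝ) ^ (1 / 8 : ℝ)) := by ring
      _ = 9 ^ (9 / 8 : ℝ) * n := by rw [h7]
      _ ≤ 12 * n := mul_le_mul_of_nonneg_right h4 hn0.le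
  linarith

theorem log_two_mul_le {n : ℕ} (hn : 2 ≤ n) {m : ℝ} (hm0 : 0 < m) (hm : m ≤ 2 * n) :
    Real.log m ≤ 2 * Real.log n := by
  have hn2 : (2 : ℝ) ≤ n := by exact_mod_cast hn
  have h1 := Real.log_le_log hm0 hm
  rw [Real.log_mul (by norm_num) (by linarith)] at h1
  have h2 := Real.log_le_log (by norm_num) hn2
  linarith

/-- Long range monotonicity. -/
theorem long_range : ∃ c : ℝ, 0 < c ∧ ∀ n : ℕ, 2 ≤ n → 0 < C n → ∀ m : ℕ,
    (n : ℝ) + c * ((n : ℝ) ^ (7 / 8 : ℝ) * Real.log n ^ (1 / 8 : ℝ)) ≤ m → r m < r n := by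
  obtain ⟨K, hK⟩ : ∃ K, K = Real.exp 2400 := ⟨_, rfl⟩
  have hK1 : 1 ≤ K := by
    rw [hK]
    exact Real.one_le_exp (by norm_num)
  have hK0 : 0 < K := by linarith
  refine ⟨10000 * K ^ 2, by positivity, fun n hn hC m hm => ?_⟩
  have hn2 : (2 : ℝ) ≤ n := by exact_mod_cast hn
  have hn0 : (0 : ℝ) < n := by linarith
  have hL : 0 < Real.log n := Real.log_pos (by linarith)
  have hL2 : (0.69 : ℝ) ≤ Real.log n := by
    have h1 := Real.log_two_gt_d9
    have h2 := Real.log_le_log (by norm_num) hn2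
    linarith
  have hφ0 : 0 < (n : ℝ) ^ (7 / 8 : ℝ) * Real.log n ^ (1 / 8 : ℝ) := by positivity
  have hφ1 : 1 / 2 ≤ (n : ℝ) ^ (7 / 8 : ℝ) * Real.log n ^ (1 / 8 : ℝ) := by
    have h1 : 1 ≤ (n : ℝ) ^ (7 / 8 : ℝ) := Real.one_le_rpow (by linarith) (by norm_num)
    have h2 : (1 / 2 : ℝ) ≤ Real.log n ^ (1 / 8 : ℝ) := by
      calc (1 / 2 : ℝ) ≤ (1 / 2 : ℝ) ^ (1 / 8 : ℝ) := by
            have := Real.rpow_le_rpow_of_exponent_ge (x := (1 / 2 : ℝ)) (by norm_num)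
              (by norm_num) (show (1 / 8 : ℝ) ≤ 1 by norm_num)
            rwa [Real.rpow_one] at this
        _ ≤ _ := Real.rpow_le_rpow (by norm_num) (by linarith) (by norm_num)
    nlinarith
  have hmn : (n : ℝ) < m := by
    have : 0 < 10000 * K ^ 2 * ((n : ℝ) ^ (7 / 8 : ℝ) * Real.log n ^ (1 / 8 : ℝ)) := by
      positivity
    linarith
  have hmn' : n < m := by exact_mod_cast hmn
  have hm2 : 2 ≤ m := by omega
  have hm0 : (0 : ℝ) < m := by linarith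
  have hfm : (0 : ℝ) < m.factorial := by exact_mod_cast m.factorial_pos
  have hfn : (0 : ℝ) < n.factorial := by exact_mod_cast n.factorial_pos
  have key : (C m : ℝ) * n.factorial < m.factorial := by
    by_cases hcase : (m : ℝ) ≤ 2 * n
    · -- `m ≤ 2 n`
      obtain ⟨t, rfl⟩ := Nat.exists_eq_add_of_lt hmn'
      have h1 : ((n.factorial : ℝ)) * ((n : ℝ) + 1) ^ (t + 1) ≤
          ((n + t + 1).factorial : ℝ) := by
        exact_mod_cast Nat.factorial_mul_pow_le_factorial (m := n) (n := t + 1)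
      refine lt_of_lt_of_le ?_ h1
      rw [mul_comm]
      refine mul_lt_mul_of_pos_left ?_ hfn
      refine lt_of_le_of_lt (C_subexp _ hm2) ?_
      rw [← Real.lt_log_iff_exp_lt (by positivity), Real.log_pow]
      have h2 : Real.log n < Real.log ((n : ℝ) + 1) := Real.log_lt_log hn0 (by linarith)
      have h3 : ((n + t + 1 : ℕ) : ℝ) ^ (7 / 8 : ℝ) ≤ 2 * (n : ℝ) ^ (7 / 8 : ℝ) := by
        calc ((n + t + 1 : ℕ) : ℝ) ^ (7 / 8 : ℝ) ≤ (2 * n) ^ (7 / 8 : ℝ) :=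
              Real.rpow_le_rpow (Nat.cast_nonneg _) hcase (by norm_num)
          _ = 2 ^ (7 / 8 : ℝ) * (n : ℝ) ^ (7 / 8 : ℝ) := Real.mul_rpow (by norm_num) hn0.le
          _ ≤ 2 * (n : ℝ) ^ (7 / 8 : ℝ) := by
              refine mul_le_mul_of_nonneg_right ?_ (by positivity)
              have := Real.rpow_le_rpow_of_exponent_le (x := (2 : ℝ)) (by norm_num)
                (show (7 / 8 : ℝ) ≤ 1 by norm_num)
              rwa [Real.rpow_one] at this
      have h4 : Real.log ((n + t + 1 : ℕ) : ℝ) ^ (9 / 8 : ℝ) ≤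
          4 * Real.log n ^ (9 / 8 : ℝ) := by
        have h5 := log_two_mul_le hn hm0 hcase
        have h6 : 0 ≤ Real.log ((n + t + 1 : ℕ) : ℝ) := Real.log_nonneg (by linarith)
        calc Real.log ((n + t + 1 : ℕ) : ℝ) ^ (9 / 8 : ℝ) ≤ (2 * Real.log n) ^ (9 / 8 : ℝ) :=
              Real.rpow_le_rpow h6 h5 (by norm_num)
          _ = 2 ^ (9 / 8 : ℝ) * Real.log n ^ (9 / 8 : ℝ) := Real.mul_rpow (by norm_num) hL.le
          _ ≤ 4 * Real.log n ^ (9 / 8 : ℝ) := by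
              refine mul_le_mul_of_nonneg_right ?_ (by positivity)
              have := Real.rpow_le_rpow_of_exponent_le (x := (2 : ℝ)) (by norm_num)
                (show (9 / 8 : ℝ) ≤ 2 by norm_num)
              rw [show (2 : ℝ) ^ (2 : ℝ) = 4 by norm_num] at this
              exact this
      have h7 : ((n + t + 1 : ℕ) : ℝ) ^ (7 / 8 : ℝ) *
          Real.log ((n + t + 1 : ℕ) : ℝ) ^ (9 / 8 : ℝ) ≤
          (2 * (n : ℝ) ^ (7 / 8 : ℝ)) * (4 * Real.log n ^ (9 / 8 : ℝ)) := by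
        refine mul_le_mul h3 h4 ?_ (by positivity)
        have h6 : 0 ≤ Real.log ((n + t + 1 : ℕ) : ℝ) := Real.log_nonneg (by linarith)
        positivity
      have h8 : Real.log n ^ (9 / 8 : ℝ) = Real.log n ^ (1 / 8 : ℝ) * Real.log n := by
        rw [show (9 / 8 : ℝ) = 1 / 8 + 1 by norm_num, Real.rpow_add hL, Real.rpow_one]
      have h9 : 10000 * K ^ 2 * ((n : ℝ) ^ (7 / 8 : ℝ) * Real.log n ^ (1 / 8 : ℝ)) ≤
          ((t + 1 : ℕ) : ℝ) := by
        push_cast at hm ⊢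
        linarith
      have h10 : 1 ≤ K ^ 2 := one_le_pow₀ hK1
      have h11 : 1600 * ((n : ℝ) ^ (7 / 8 : ℝ) * Real.log n ^ (1 / 8 : ℝ)) ≤
          ((t + 1 : ℕ) : ℝ) := by
        refine le_trans ?_ h9
        refine mul_le_mul_of_nonneg_right ?_ hφ0.le
        nlinarith
      have h12 : (0 : ℝ) < ((t + 1 : ℕ) : ℝ) := by positivity
      calc 200 * (((n + t + 1 : ℕ) : ℝ) ^ (7 / 8 : ℝ) *
            Real.log ((n + t + 1 : ℕ) : ℝ) ^ (9 / 8 : ℝ))
          ≤ 200 * ((2 * (n : ℝ) ^ (7 / 8 : ℝ)) * (4 * Real.log n ^ (9 / 8 : ℝ))) := by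
            linarith
        _ = 1600 * ((n : ℝ) ^ (7 / 8 : ℝ) * Real.log n ^ (1 / 8 : ℝ)) * Real.log n := by
            rw [h8]
            ring
        _ ≤ ((t + 1 : ℕ) : ℝ) * Real.log n := mul_le_mul_of_nonneg_right h11 hL.le
        _ < ((t + 1 : ℕ) : ℝ) * Real.log ((n : ℝ) + 1) := mul_lt_mul_of_pos_left h2 h12
    · -- `m > 2 n`
      push Not at hcase
      have h1 : 5000 * K ^ 2 ≤ m := by
        have : 10000 * K ^ 2 * (1 / 2) ≤
            10000 * K ^ 2 * ((n : ℝ) ^ (7 / 8 : ℝ) * Real.log n ^ (1 / 8 : ℝ)) :=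
          mul_le_mul_of_nonneg_left hφ1 (by positivity)
        linarith
      have hCm : (C m : ℝ) ≤ K ^ m := by
        rw [hK]
        exact C_exp hm2
      have he : Real.exp 1 < 3 := by linarith [Real.exp_one_lt_d9]
      have he0 : 0 < Real.exp 1 := Real.exp_pos 1
      -- squares
      have h2 : ((n.factorial : ℝ)) ^ 2 ≤ (m : ℝ) ^ m := by
        have h3 : (n.factorial : ℝ) ≤ (n : ℝ) ^ n := by exact_mod_cast Nat.factorial_le_pow n
        calc ((n.factorial : ℝ)) ^ 2 ≤ ((n : ℝ) ^ n) ^ 2 :=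
              pow_le_pow_left₀ hfn.le h3 2
          _ ≤ ((m : ℝ) ^ n) ^ 2 := by
              refine pow_le_pow_left₀ (by positivity) ?_ 2
              exact pow_le_pow_left₀ hn0.le hmn.le n
          _ = (m : ℝ) ^ (n * 2) := by rw [← pow_mul]
          _ ≤ (m : ℝ) ^ m := by
              refine pow_le_pow_right₀ (by linarith) ?_
              have : (2 * n : ℕ) ≤ m := by exact_mod_cast hcase.le
              omega
      have h4 : (K ^ m) ^ 2 * (m : ℝ) ^ m < (((m : ℝ) / Real.exp 1) ^ m) ^ 2 := by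
        rw [← pow_mul, ← pow_mul, mul_comm m 2, pow_mul, pow_mul, ← mul_pow]
        refine pow_lt_pow_left₀ ?_ (by positivity) (by omega)
        rw [div_pow, lt_div_iff₀ (by positivity)]
        have h5 : Real.exp 1 ^ 2 < 9 := by nlinarith
        have h6 : K ^ 2 * (m : ℝ) * Real.exp 1 ^ 2 < K ^ 2 * m * 9 :=
          mul_lt_mul_of_pos_left h5 (by positivity)
        nlinarith
      have h7 : ((C m : ℝ) * n.factorial) ^ 2 < ((m.factorial : ℝ)) ^ 2 := by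
        calc ((C m : ℝ) * n.factorial) ^ 2 = (C m : ℝ) ^ 2 * (n.factorial : ℝ) ^ 2 := by ring
          _ ≤ (K ^ m) ^ 2 * (m : ℝ) ^ m := by
              refine mul_le_mul ?_ h2 (by positivity) (by positivity)
              exact pow_le_pow_left₀ (Nat.cast_nonneg _) hCm 2
          _ < (((m : ℝ) / Real.exp 1) ^ m) ^ 2 := h4
          _ ≤ ((m.factorial : ℝ)) ^ 2 := pow_le_pow_left₀ (by positivity) (factorial_ge m) 2
      exact lt_of_pow_lt_pow_left₀ 2 hfm.le h7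
  unfold r
  rw [div_lt_div_iff₀ hfm hfn]
  have h1 : (1 : ℝ) ≤ C n := by exact_mod_cast hC
  calc (C m : ℝ) * n.factorial < m.factorial := key
    _ ≤ C n * m.factorial := by nlinarith

/-- The inequality of the question holds in every interval `[N, N + c N^(7/8) (log N)^(1/8)]`. -/
theorem gaps : ∃ c : ℝ, 0 < c ∧ ∀ N : ℕ, 2 ≤ N → ∃ n : ℕ, N ≤ n ∧
    (n : ℝ) ≤ N + c * ((N : ℝ) ^ (7 / 8 : ℝ) * Real.log N ^ (1 / 8 : ℝ)) ∧
    C (n + 1) ≤ (n + 1) * C n := by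
  obtain ⟨c, hc, h⟩ := long_range
  refine ⟨4 * c + 4, by positivity, fun N hN => ?_⟩
  by_contra hcon
  push Not at hcon
  have hN2 : (2 : ℝ) ≤ N := by exact_mod_cast hN
  have hN0 : (0 : ℝ) < N := by linarith
  have hL : 0 < Real.log N := Real.log_pos (by linarith)
  have hL2 : (0.69 : ℝ) ≤ Real.log N := by
    have h1 := Real.log_two_gt_d9
    have h2 := Real.log_le_log (by norm_num) hN2
    linarith
  obtain ⟨φ, hφ⟩ : ∃ φ, φ = (N : ℝ) ^ (7 / 8 : ℝ) * Real.log N ^ (1 / 8 : ℝ) := ⟨_, rfl⟩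
  have hφ0 : 0 < φ := by
    rw [hφ]
    positivity
  have hφ1 : 1 / 2 ≤ φ := by
    rw [hφ]
    have h1 : 1 ≤ (N : ℝ) ^ (7 / 8 : ℝ) := Real.one_le_rpow (by linarith) (by norm_num)
    have h2 : (1 / 2 : ℝ) ≤ Real.log N ^ (1 / 8 : ℝ) := by
      calc (1 / 2 : ℝ) ≤ (1 / 2 : ℝ) ^ (1 / 8 : ℝ) := by
            have := Real.rpow_le_rpow_of_exponent_ge (x := (1 / 2 : ℝ)) (by norm_num)
              (by norm_num) (show (1 / 8 : ℝ) ≤ 1 by norm_num)
            rwa [Real.rpow_one] at this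
        _ ≤ _ := Real.rpow_le_rpow (by norm_num) (by linarith) (by norm_num)
    nlinarith
  rw [← hφ] at hcon
  set X : ℝ := N + (4 * c + 4) * φ with hX
  have hX0 : (N : ℝ) ≤ X := by
    have : 0 ≤ (4 * c + 4) * φ := by positivity
    linarith
  -- r increases
  have hstep : ∀ n : ℕ, N ≤ n → (n : ℝ) ≤ X → r n < r (n + 1) := by
    intro n hn hnX
    have h1 := hcon n hn hnX
    unfold r
    have h2 : (0 : ℝ) < n.factorial := by exact_mod_cast n.factorial_pos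
    have h3 : (0 : ℝ) < (n + 1).factorial := by exact_mod_cast (n + 1).factorial_pos
    rw [div_lt_div_iff₀ h2 h3, Nat.factorial_succ]
    push_cast
    have h4 : (((n : ℝ) + 1) * C n) < C (n + 1) := by exact_mod_cast h1
    nlinarith
  have hmono : ∀ t : ℕ, ((N + t : ℕ) : ℝ) ≤ X → r (N + 1) ≤ r (N + 1 + t) := by
    intro t
    induction t with
    | zero => intro _; exact le_rfl
    | succ t ih =>
      intro ht
      have h1 : ((N + t : ℕ) : ℝ) ≤ X := by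
        push_cast at ht ⊢
        linarith
      refine (ih h1).trans ?_
      have h2 := hstep (N + 1 + t) (by omega) (by
        push_cast at ht ⊢
        linarith)
      exact h2.le
  have hC1 : 0 < C (N + 1) := by
    have := hcon N le_rfl hX0
    omega
  set t : ℕ := ⌊X⌋₊ - N with ht
  have hfl : N ≤ ⌊X⌋₊ := Nat.le_floor hX0
  have hNt : N + t = ⌊X⌋₊ := by omega
  have h1 := hmono t (by
    rw [hNt]
    exact Nat.floor_le (hN0.le.trans hX0))
  have h2 := h (N + 1) (by omega) hC1 (N + 1 + t) (by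
    have h3 : X < ((N + 1 + t : ℕ) : ℝ) := by
      have h4 : N + 1 + t = ⌊X⌋₊ + 1 := by omega
      rw [h4]
      push_cast
      exact Nat.lt_floor_add_one X
    refine le_trans ?_ h3.le
    rw [hX]
    have hN1 : ((N + 1 : ℕ) : ℝ) ≤ 2 * N := by
      push_cast
      linarith
    have hN10 : (0 : ℝ) < ((N + 1 : ℕ) : ℝ) := by positivity
    have h5 := log_two_mul_le hN hN10 hN1
    have h5' : 0 ≤ Real.log ((N + 1 : ℕ) : ℝ) := Real.log_nonneg (by
      push_cast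
      linarith)
    have h6 : ((N + 1 : ℕ) : ℝ) ^ (7 / 8 : ℝ) ≤ 2 * (N : ℝ) ^ (7 / 8 : ℝ) := by
      calc ((N + 1 : ℕ) : ℝ) ^ (7 / 8 : ℝ) ≤ (2 * N) ^ (7 / 8 : ℝ) :=
            Real.rpow_le_rpow hN10.le hN1 (by norm_num)
        _ = 2 ^ (7 / 8 : ℝ) * (N : ℝ) ^ (7 / 8 : ℝ) := Real.mul_rpow (by norm_num) hN0.le
        _ ≤ 2 * (N : ℝ) ^ (7 / 8 : ℝ) := by
            refine mul_le_mul_of_nonneg_right ?_ (by positivity)
            have := Real.rpow_le_rpow_of_exponent_le (x := (2 : ℝ)) (by norm_num)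
              (show (7 / 8 : ℝ) ≤ 1 by norm_num)
            rwa [Real.rpow_one] at this
    have h7 : Real.log ((N + 1 : ℕ) : ℝ) ^ (1 / 8 : ℝ) ≤ 2 * Real.log N ^ (1 / 8 : ℝ) := by
      calc Real.log ((N + 1 : ℕ) : ℝ) ^ (1 / 8 : ℝ) ≤ (2 * Real.log N) ^ (1 / 8 : ℝ) :=
            Real.rpow_le_rpow h5' h5 (by norm_num)
        _ = 2 ^ (1 / 8 : ℝ) * Real.log N ^ (1 / 8 : ℝ) := Real.mul_rpow (by norm_num) hL.le
        _ ≤ 2 * Real.log N ^ (1 / 8 : ℝ) := by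
            refine mul_le_mul_of_nonneg_right ?_ (by positivity)
            have := Real.rpow_le_rpow_of_exponent_le (x := (2 : ℝ)) (by norm_num)
              (show (1 / 8 : ℝ) ≤ 1 by norm_num)
            rwa [Real.rpow_one] at this
    have h8 : ((N + 1 : ℕ) : ℝ) ^ (7 / 8 : ℝ) * Real.log ((N + 1 : ℕ) : ℝ) ^ (1 / 8 : ℝ) ≤
        4 * φ := by
      calc ((N + 1 : ℕ) : ℝ) ^ (7 / 8 : ℝ) * Real.log ((N + 1 : ℕ) : ℝ) ^ (1 / 8 : ℝ)
          ≤ (2 * (N : ℝ) ^ (7 / 8 : ℝ)) * (2 * Real.log N ^ (1 / 8 : ℝ)) :=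
            mul_le_mul h6 h7 (by positivity) (by positivity)
        _ = 4 * φ := by
            rw [hφ]
            ring
    have h9 := mul_le_mul_of_nonneg_left h8 hc.le
    push_cast at h9 ⊢
    linarith)
  exact absurd h2 (not_lt.2 h1)

end Pool.MP_d821cf_co.Sub
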