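import Pool.Agent.Lib.MP_d821cf_co.Sub.Lind

/-!
# A set shattered by a class of Sidon sets is small
-/

set_option autoImplicit false

namespace Pool.MP_d821cf_co.Sub

open Finset

/-- Some split of `Y` has at least a quarter of all pairs. -/
theorem exists_split {α : Type*} [DecidableEq α] (Y : Finset α) (h : α × α → ℝ) :
    ∃ Z ⊆ Y, ∑ q ∈ Y.offDiag, h q ≤ 4 * ∑ q ∈ Z ×ˢ (Y \ Z), h q := by
  classical
  have hp : ∀ Z ∈ Y.powerset, ∑ q ∈ Z ×ˢ (Y \ Z), h q =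
      ∑ q ∈ Y.offDiag, if q.1 ∈ Z ∧ q.2 ∉ Z then h q else 0 := by
    intro Z hZ
    rw [mem_powerset] at hZ
    rw [← sum_filter]
    refine sum_congr ?_ fun _ _ => rfl
    ext q
    rw [mem_product, mem_sdiff, mem_filter, mem_offDiag]
    constructor
    · rintro ⟨h1, h2, h3⟩
      exact ⟨⟨hZ h1, h2, fun he => h3 (he ▸ h1)⟩, h1, h3⟩
    · rintro ⟨⟨h1, h2, h3⟩, h4, h5⟩
      exact ⟨h4, h2, h5⟩
  have hquarter : ∀ q ∈ Y.offDiag, (∑ Z ∈ Y.powerset,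
      w (1 / 2) Y Z * (if q.1 ∈ Z ∧ q.2 ∉ Z then h q else 0)) = 1 / 4 * h q := by
    intro q hq
    rw [mem_offDiag] at hq
    have h1 := sum_w_superset (1 / 2) (A := Y) (T := {q.1}) (singleton_subset_iff.2 hq.1)
    have h2 := sum_w_superset (1 / 2) (A := Y) (T := {q.1, q.2}) (by
      intro x hx
      rw [mem_insert, mem_singleton] at hx
      rcases hx with rfl | rfl
      · exact hq.1
      · exact hq.2.1)
    rw [card_singleton, sum_filter] at h1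
    rw [card_pair hq.2.2, sum_filter] at h2
    have h3 : ∀ Z ∈ Y.powerset, w (1 / 2) Y Z * (if q.1 ∈ Z ∧ q.2 ∉ Z then h q else 0) =
        ((if {q.1} ⊆ Z then w (1 / 2) Y Z else 0) -
          (if {q.1, q.2} ⊆ Z then w (1 / 2) Y Z else 0)) * h q := by
      intro Z _
      simp only [insert_subset_iff, singleton_subset_iff]
      by_cases e1 : q.1 ∈ Z <;> by_cases e2 : q.2 ∈ Z <;> simp [e1, e2]
    rw [sum_congr rfl h3, ← sum_mul, sum_sub_distrib, h1, h2]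
    norm_num
  have hpos : ∀ Z, 0 < w (1 / 2) Y Z := by
    intro Z
    unfold w
    norm_num
  have htot : ∑ Z ∈ Y.powerset, w (1 / 2) Y Z * (∑ q ∈ Y.offDiag, h q) ≤
      ∑ Z ∈ Y.powerset, w (1 / 2) Y Z * (4 * ∑ q ∈ Z ×ˢ (Y \ Z), h q) := by
    refine le_of_eq ?_
    rw [← sum_mul, sum_w, one_mul]
    have e1 : ∀ Z ∈ Y.powerset, w (1 / 2) Y Z * (4 * ∑ q ∈ Z ×ˢ (Y \ Z), h q) =
        4 * ∑ q ∈ Y.offDiag, w (1 / 2) Y Z * (if q.1 ∈ Z ∧ q.2 ∉ Z then h q else 0) := by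
      intro Z hZ
      rw [hp Z hZ, mul_left_comm, mul_sum]
    rw [sum_congr rfl e1, ← mul_sum, sum_comm, sum_congr rfl hquarter, ← mul_sum]
    ring
  obtain ⟨Z, hZ, hle⟩ := exists_le_of_sum_le ⟨∅, empty_mem_powerset Y⟩ htot
  exact ⟨Z, mem_powerset.1 hZ, le_of_mul_le_mul_left hle (hpos Z)⟩

variable {G : Type*} [AddCommGroup G] [DecidableEq G]

/-- The inequality satisfied by a set shattered by a class of Sidon sets. -/
theorem shatter_bound {P U S B : Finset G} {n R : ℕ} (hS : ∀ a ∈ P, ∀ s ∈ U, a + s ∈ S)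
    {𝒞 : Finset (Finset G)} (hSid : ∀ A ∈ 𝒞, Sid A) (hP : ∀ A ∈ 𝒞, A ⊆ P)
    (hn : ∀ A ∈ 𝒞, #A = n) (hB : ∀ A ∈ 𝒞, B ⊆ A)
    (hK : ∀ A ∈ 𝒞, ∀ x ∈ P, x ∉ A → R ≤ #(rep A x) → Kill B x)
    {Y : Finset G} (hY : 𝒞.Shatters Y) :
    ((#Y : ℝ) * #U) ^ 2 + 4 * ((n : ℝ) * #U) ^ 2 ≤
      #S * (#Y * #U) + 4 * (#S * (n * #U + (#U : ℝ) ^ 2 + R * #U * #Y)) := by
  classical
  obtain ⟨A', hA', hYA'⟩ := hY (t := Y) subset_rfl
  have hYA' : Y ⊆ A' := inter_eq_left.1 hYA'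
  obtain ⟨Z, hZY, hZ⟩ := exists_split Y (fun q => (g U (q.2 - q.1) : ℝ))
  obtain ⟨A, hA, hYA⟩ := hY (t := Z) hZY
  have hZA : Z ⊆ A := by
    rw [← hYA]
    exact inter_subset_right
  have hWA : ∀ j ∈ Y \ Z, j ∉ A := by
    intro j hj hjA
    rw [mem_sdiff] at hj
    apply hj.2
    rw [← hYA]
    exact mem_inter.2 ⟨hj.1, hjA⟩
  have hR : ∀ j ∈ Y \ Z, #(rep A j) ≤ R := by
    intro j hj
    by_contra hcon
    push Not at hcon
    have hjY := (mem_sdiff.1 hj).1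
    have h1 := hK A hA j (hP A' hA' (hYA' hjY)) (hWA j hj) hcon.le
    exact not_kill (hSid A' hA') (hB A' hA') (hYA' hjY) (fun h => hWA j hj (hB A hA h)) h1
  have h1 := compare (S := S) (U := U) (hSid A hA) (hSid A' hA')
    (fun a ha s hs => hS a (hP A hA ha) s hs) hZA (hZY.trans hYA')
    (sdiff_subset.trans hYA') hWA hR
  have h2 := cs (S := S) (U := U) (A := Y) (fun a ha s hs => hS a (hP A' hA' (hYA' ha)) s hs)
  have h3 : #(Y \ Z) ≤ #Y := card_le_card sdiff_subset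
  have h1' : ((n : ℝ) * #U) ^ 2 + #S * (∑ q ∈ Z ×ˢ (Y \ Z), (g U (q.2 - q.1) : ℝ)) ≤
      #S * (n * #U + (#U : ℝ) ^ 2 + R * #U * #Y) := by
    rw [hn A hA] at h1
    have h4 : (n * #U) ^ 2 + #S * ∑ q ∈ Z ×ˢ (Y \ Z), g U (q.2 - q.1) ≤
        #S * (n * #U + #U ^ 2 + R * #U * #Y) := by
      refine h1.trans (Nat.mul_le_mul_left _ ?_)
      have := Nat.mul_le_mul_left (R * #U) h3
      omega
    exact_mod_cast h4
  have h2' : ((#Y : ℝ) * #U) ^ 2 ≤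
      #S * (#Y * #U + ∑ q ∈ Y.offDiag, (g U (q.2 - q.1) : ℝ)) := by
    exact_mod_cast h2
  have hS0 : (0 : ℝ) ≤ #S := Nat.cast_nonneg _
  have h5 := mul_le_mul_of_nonneg_left hZ hS0
  nlinarith

end Pool.MP_d821cf_co.Sub
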